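import Pool.Agent.H42.PG.Two

namespace H42PG

open H42PF

/-- Comparison of a sum over periods with an integral. -/
lemma int_bound {κ : ℝ} (hκ : 0 < κ) (hκ1 : κ ≤ 1) (φ : ℕ → ℝ) (hφ : Antitone φ) (n : ℕ) :
    ∑ p ∈ Finset.range n, φ (hh κ (p+1)) ≤
      (1/κ) * (∑ j ∈ Finset.range (hh κ n), φ (j+1)) - ((hh κ n : ℝ) / κ - n) * φ (hh κ n) := by
  induction n with
  | zero =>
    have h0 : hh κ 0 = 0 := by unfold hh; simp
    rw [h0]; simp
  | succ n ih =>
    rw [Finset.sum_range_succ]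
    set h := hh κ n with hh_def
    have h1 : h ≤ hh κ (n+1) := hh_mono hκ.le (by omega)
    have h2 : hh κ (n+1) ≤ h + 1 := by
      unfold hh
      apply Nat.ceil_le.mpr
      have := le_hh κ n
      rw [← hh_def] at this
      push_cast
      linarith
    have h3 : (n:ℝ) ≤ h / κ := by
      rw [le_div_iff₀ hκ]
      have := le_hh κ n
      rw [← hh_def] at this
      linarith
    rcases Nat.lt_or_ge h (hh κ (n+1)) with h4 | h4
    · have e : hh κ (n+1) = h + 1 := by omega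
      rw [e, Finset.sum_range_succ]
      have h5 : φ (h+1) ≤ φ h := hφ (by omega)
      have h6 : ((h:ℝ)/κ - n) * φ (h+1) ≤ ((h:ℝ)/κ - n) * φ h :=
        mul_le_mul_of_nonneg_left h5 (by linarith)
      push_cast
      have e2 : ((h:ℝ)+1)/κ = h/κ + 1/κ := by ring
      rw [e2]
      nlinarith
    · have e : hh κ (n+1) = h := by omega
      rw [e]
      push_cast
      nlinarith

lemma int_bound' {κ B : ℝ} (hκ : 0 < κ) (hκ1 : κ ≤ 1) (φ : ℕ → ℝ) (hφ : Antitone φ)
    (hφ0 : ∀ n, 0 ≤ φ n) (hB : ∀ m, ∑ j ∈ Finset.range m, φ (j+1) ≤ B) (n : ℕ) :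
    ∑ p ∈ Finset.range n, φ (hh κ (p+1)) ≤ (1/κ) * B := by
  refine le_trans (int_bound hκ hκ1 φ hφ n) ?_
  have h1 := hB (hh κ n)
  have h3 : (n:ℝ) ≤ (hh κ n : ℝ) / κ := by
    rw [le_div_iff₀ hκ]
    have := le_hh κ n
    linarith
  have h4 : 0 ≤ ((hh κ n : ℝ) / κ - n) * φ (hh κ n) := mul_nonneg (by linarith) (hφ0 _)
  have h5 : (1/κ) * (∑ j ∈ Finset.range (hh κ n), φ (j+1)) ≤ (1/κ) * B :=
    mul_le_mul_of_nonneg_left h1 (by positivity)
  linarith

section base

variable {b : ℝ}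

lemma pow_anti (hb0 : 0 < b) (hb1 : b ≤ 1/2) {m n : ℕ} (h : m ≤ n) : b ^ n ≤ b ^ m :=
  pow_le_pow_of_le_one hb0.le (by linarith) h

lemma geo1 (hb0 : 0 < b) (hb1 : b ≤ 1/2) (m : ℕ) :
    ∑ j ∈ Finset.range m, b ^ (j+1) ≤ b / (1 - b) := by
  have h1 : (0:ℝ) < 1 - b := by linarith
  have h2 : ∑ j ∈ Finset.range m, b ^ (j+1) = b / (1 - b) * (1 - b ^ m) := by
    induction m with
    | zero => simp
    | succ m ih =>
      rw [Finset.sum_range_succ, ih]
      field_simp
      ring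
  rw [h2]
  have h3 : 0 < b ^ m := pow_pos hb0 m
  have h4 : 0 < b / (1 - b) := by positivity
  nlinarith

lemma sum_b_hh {κ : ℝ} (hκ : 0 < κ) (hκ1 : κ ≤ 1) (hb0 : 0 < b) (hb1 : b ≤ 1/2) (n : ℕ) :
    ∑ p ∈ Finset.range n, b ^ (hh κ (p+1)) ≤ (1/κ) * (b / (1-b)) :=
  int_bound' hκ hκ1 (fun h => b ^ h) (fun _ _ h => pow_anti hb0 hb1 h)
    (fun n => (pow_pos hb0 n).le) (fun m => geo1 hb0 hb1 m) n

lemma geo2 (hb0 : 0 < b) (hb1 : b ≤ 1/2) (m : ℕ) :
    ∑ j ∈ Finset.range m, b ^ ((j+1+2)/2) ≤ b + 2 * b * (b / (1 - b)) := by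
  have h1 : (0:ℝ) < 1 - b := by linarith
  have h2 : ∀ m, ∑ j ∈ Finset.range (2*m+1), b ^ ((j+1+2)/2) =
      b + 2 * b * (b / (1 - b)) * (1 - b ^ m) := by
    intro m
    induction m with
    | zero => simp
    | succ m ih =>
      have e : 2 * (m+1) + 1 = 2 * m + 1 + 1 + 1 := by ring
      rw [e, Finset.sum_range_succ, Finset.sum_range_succ, ih]
      have e1 : (2 * m + 1 + 1 + 2)/2 = m + 2 := by omega
      have e2 : (2 * m + 1 + 1 + 1 + 2)/2 = m + 2 := by omega
      rw [e1, e2]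
      field_simp
      ring
  have h3 : ∑ j ∈ Finset.range m, b ^ ((j+1+2)/2) ≤
      ∑ j ∈ Finset.range (2*m+1), b ^ ((j+1+2)/2) := by
    apply Finset.sum_le_sum_of_subset_of_nonneg
    · intro i hi
      rw [Finset.mem_range] at hi ⊢
      omega
    · intro i _ _; positivity
  rw [h2] at h3
  have h4 : 0 < b ^ m := pow_pos hb0 m
  have h5 : 0 < 2 * b * (b / (1 - b)) := by positivity
  nlinarith

lemma sum_b_half {κ : ℝ} (hκ : 0 < κ) (hκ1 : κ ≤ 1) (hb0 : 0 < b) (hb1 : b ≤ 1/2) (n : ℕ) :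
    ∑ p ∈ Finset.range n, b ^ ((hh κ (p+1) + 2)/2) ≤ (1/κ) * (b + 2 * b * (b / (1-b))) :=
  int_bound' hκ hκ1 (fun h => b ^ ((h+2)/2))
    (fun _ _ h => pow_anti hb0 hb1 (by omega))
    (fun n => (pow_pos hb0 _).le) (fun m => geo2 hb0 hb1 m) n

variable {α : Type*} [DecidableEq α]

/-- weight with base `b` and general thresholds -/
noncomputable def RB (b : ℝ) (g : ℕ → ℕ) (l : List α) : ℝ :=
  ∑ p ∈ Finset.range l.length, b ^ (g (p+1) - lam l (p+1))

/-- One greedy step with general base and thresholds. -/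
lemma bstep {g : ℕ → ℕ} {K S : ℝ} (hb0 : 0 < b) (hb1 : b ≤ 1/2) (hg : ∀ p, 1 ≤ p → 1 ≤ g p)
    (hS : ∀ n, ∑ p ∈ Finset.range n, b ^ (g (p+1)) ≤ S) (A : Finset α)
    (hA1 : K / b < A.card) (hA2 : 1 + S ≤ K)
    (l : List α) (hl : ∀ p, 1 ≤ p → lam l p < g p) (hR : RB b g l ≤ K) :
    ∃ a ∈ A, (∀ p, 1 ≤ p → lam (a :: l) p < g p) ∧ RB b g (a :: l) ≤ K := by
  have hK : 0 ≤ K := by
    refine le_trans ?_ hR
    unfold RB
    positivity
  have hApos : (0:ℝ) < A.card := by
    have : 0 ≤ K / b := by positivity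
    linarith
  let Φ : α → ℝ := fun a => ∑ p ∈ Finset.range l.length,
    if l[p]? = some a then b⁻¹ * b ^ (g (p+1) - lam l (p+1)) else 0
  have hΦ : ∑ a ∈ A, Φ a ≤ K / b := by
    simp only [Φ]
    rw [Finset.sum_comm]
    have h1 : ∀ p ∈ Finset.range l.length,
        ∑ a ∈ A, (if l[p]? = some a then b⁻¹ * b ^ (g (p+1) - lam l (p+1)) else 0)
        ≤ b⁻¹ * b ^ (g (p+1) - lam l (p+1)) := by
      intro p hp
      rw [Finset.mem_range] at hp
      have h2 : l[p]? = some l[p] := List.getElem?_eq_getElem hp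
      simp only [h2, Option.some.injEq]
      rw [Finset.sum_ite_eq]
      split_ifs
      · exact le_rfl
      · positivity
    refine le_trans (Finset.sum_le_sum h1) ?_
    rw [← Finset.mul_sum]
    have : ∑ i ∈ Finset.range l.length, b ^ (g (i+1) - lam l (i+1)) = RB b g l := rfl
    rw [this, div_eq_inv_mul]
    exact mul_le_mul_of_nonneg_left hR (by positivity)
  have hex : ∃ a ∈ A, Φ a ≤ K / b / A.card := by
    by_contra hcon
    push Not at hcon
    have hne : A.Nonempty := by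
      rw [← Finset.card_pos]; exact_mod_cast hApos
    have h2 : ∑ a ∈ A, (K / b / A.card) < ∑ a ∈ A, Φ a :=
      Finset.sum_lt_sum_of_nonempty hne hcon
    rw [Finset.sum_const, nsmul_eq_mul, mul_div_cancel₀ _ (ne_of_gt hApos)] at h2
    linarith
  obtain ⟨a, haA, ha⟩ := hex
  have hlt1 : K / b / A.card < 1 := by
    rw [div_lt_one hApos]; exact hA1
  have hterm : ∀ p, p < l.length → l[p]? = some a →
      b⁻¹ * b ^ (g (p+1) - lam l (p+1)) < 1 := by
    intro p hp hpa
    have h1 : (if l[p]? = some a then b⁻¹ * b ^ (g (p+1) - lam l (p+1)) else 0) ≤ Φ a := by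
      apply Finset.single_le_sum (f := fun p => if l[p]? = some a then
        b⁻¹ * b ^ (g (p+1) - lam l (p+1)) else 0)
      · intro q _; split_ifs <;> positivity
      · exact Finset.mem_range.mpr hp
    rw [if_pos hpa] at h1
    linarith
  have hlam2 : ∀ p, 1 ≤ p → l[p-1]? = some a → lam l p + 2 ≤ g p := by
    intro p hp hpa
    have hlt : p - 1 < l.length := (List.getElem?_eq_some_iff.mp hpa).1
    have h1 := hterm (p-1) hlt hpa
    have e : p - 1 + 1 = p := by omega
    rw [e] at h1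
    have h2 := hl p hp
    by_contra h3
    have h4 : g p - lam l p = 1 := by omega
    rw [h4, pow_one, inv_mul_cancel₀ (ne_of_gt hb0)] at h1
    exact lt_irrefl _ h1
  refine ⟨a, haA, ?_, ?_⟩
  · intro p hp
    rw [lam_cons]
    split_ifs with h1
    · have := hlam2 p hp h1
      omega
    · exact hg p hp
  · have h1 : RB b g (a :: l) ≤ ∑ p ∈ Finset.range (l.length + 1),
        ((if l[p]? = some a then b⁻¹ * b ^ (g (p+1) - lam l (p+1)) else 0)
          + b ^ (g (p+1))) := by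
      unfold RB
      rw [List.length_cons]
      apply Finset.sum_le_sum
      intro p hp
      rw [lam_cons]
      have e : p + 1 - 1 = p := by omega
      rw [e]
      split_ifs with h2
      · have h3 := hlam2 (p+1) (by omega) (by rw [e]; exact h2)
        have h4 : g (p+1) - lam l (p+1) = (g (p+1) - (lam l (p+1) + 1)) + 1 := by omega
        rw [h4, pow_succ]
        have h5 : (0:ℝ) < b ^ (g (p+1)) := by positivity
        have h6 : b⁻¹ * (b ^ (g (p+1) - (lam l (p+1) + 1)) * b) =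
            b ^ (g (p+1) - (lam l (p+1) + 1)) := by
          field_simp
        rw [h6]
        linarith
      · simp
    rw [Finset.sum_add_distrib] at h1
    have h2 : ∑ p ∈ Finset.range (l.length + 1),
        (if l[p]? = some a then b⁻¹ * b ^ (g (p+1) - lam l (p+1)) else 0) = Φ a := by
      rw [Finset.sum_range_succ]
      have h3 : l[l.length]? = none := by simp
      rw [h3]
      simp [Φ]
    rw [h2] at h1
    have h3 := hS (l.length + 1)
    linarith

/-- Greedy words of any length, general base and thresholds. -/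
lemma bgreedy {g : ℕ → ℕ} {K S : ℝ} (hb0 : 0 < b) (hb1 : b ≤ 1/2) (hg : ∀ p, 1 ≤ p → 1 ≤ g p)
    (hS : ∀ n, ∑ p ∈ Finset.range n, b ^ (g (p+1)) ≤ S) (A : Finset α)
    (hA1 : K / b < A.card) (hA2 : 1 + S ≤ K)
    (l : List α) (hl : ∀ p, 1 ≤ p → lam l p < g p) (hR : RB b g l ≤ K) (n : ℕ) :
    ∃ T : List α, T.length = n ∧ (∀ x ∈ T, x ∈ A) ∧
      (∀ e p, 1 ≤ p → lam (T.drop e ++ l) p < g p) ∧ RB b g (T ++ l) ≤ K := by
  induction n with
  | zero => exact ⟨[], rfl, by simp, by simpa using hl, by simpa using hR⟩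
  | succ n ih =>
    obtain ⟨T, hT1, hT2, hT3, hT4⟩ := ih
    obtain ⟨a, ha, h1, h2⟩ := bstep hb0 hb1 hg hS A hA1 hA2 (T ++ l) (by simpa using hT3 0) hT4
    refine ⟨a :: T, by simp [hT1], ?_, ?_, by simpa using h2⟩
    · intro x hx
      rcases List.mem_cons.mp hx with rfl | hx
      · exact ha
      · exact hT2 x hx
    · intro e p hp
      rcases e with _ | e
      · simpa using h1 p hp
      · simpa using hT3 e p hp

/-- the weight is controlled by the active part -/
lemma RB_le_Gs {κ : ℝ} (hκ : 0 < κ) (hκ1 : κ ≤ 1) (hb0 : 0 < b) (hb1 : b ≤ 1/2) {l : List α}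
    (hl : KF κ l) : RB b (hh κ) l ≤ (1/κ) * (b + 2 * b * (b / (1-b))) + Gs κ l := by
  unfold RB Gs
  have h1 : ∀ p ∈ Finset.range l.length, b ^ (hh κ (p+1) - lam l (p+1)) ≤
      b ^ ((hh κ (p+1) + 2)/2) + gw κ (p+1) (lam l (p+1)) := by
    intro p _
    unfold gw
    have h0 : 0 < b ^ ((hh κ (p+1) + 2)/2) := pow_pos hb0 _
    split_ifs with h2
    · have h3 : b ^ (hh κ (p+1) - lam l (p+1)) ≤ (1/2 : ℝ) ^ (hh κ (p+1) - lam l (p+1)) :=
        pow_le_pow_left₀ hb0.le hb1 _
      linarith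
    · rw [add_zero]
      apply pow_anti hb0 hb1
      have h3 := KF_lam hκ hl (p := p+1) (by omega)
      omega
  refine le_trans (Finset.sum_le_sum h1) ?_
  rw [Finset.sum_add_distrib]
  have := sum_b_half hκ hκ1 hb0 hb1 l.length
  linarith

/-- A long power-free extension passes through a word of small weight. -/
lemma chainB {κ C : ℝ} (hκ : 0 < κ) (hκ1 : κ ≤ 1) (hb0 : 0 < b) (hb1 : b ≤ 1/2)
    (w x : List α) (hx : KF κ (x ++ w))
    (hlen : 20 * ((x.length:ℝ) + w.length) < C * x.length) :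
    ∃ z y, x = z ++ y ∧ RB b (hh κ) (y ++ w) ≤ (1/κ) * (b + 2 * b * (b / (1-b))) + C := by
  by_contra hcon
  push Not at hcon
  have h1 : ∀ y z, x = z ++ y → C * (y.length:ℝ) ≤ GT κ (y ++ w) := by
    intro y
    induction y with
    | nil => intro z _; simpa using GT_nonneg w
    | cons a y ih =>
      intro z hz
      have h2 := ih (z ++ [a]) (by rw [hz]; simp)
      have h3 := hcon z (a :: y) hz
      have hK : KF κ (a :: y ++ w) := by
        rw [hz, List.append_assoc] at hx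
        exact KF_suffix hκ hx
      have h4 := RB_le_Gs hκ hκ1 hb0 hb1 hK
      rw [List.cons_append] at h3 h4 ⊢
      simp only [GT]
      rw [List.length_cons]
      push_cast
      linarith
  have h2 := h1 x [] rfl
  have h3 := GT_le hκ _ hx
  rw [List.length_append] at h3
  push_cast at h3
  linarith

end base

end H42PG
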