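import Pool.Agent.H42.PG.Join
import Pool.Agent.Helper131.FreeDef
import Pool.Agent.Helper131.Comp

namespace H42PG

open H42PF
open Pool.Agent.Helper131 (Free)
open Pool.Agent.Helper131.Trans
open Pool.Agent.Helper131.Comp

variable {k : ℕ}

lemma free_iff_KF {α : ℚ} (hα : 1 < α) (w : List (Fin k)) :
    Free α w ↔ KF ((α:ℝ) - 1) w := by
  have hαr : (1:ℝ) < (α:ℝ) := by exact_mod_cast hα
  have hκ : 0 < (α:ℝ) - 1 := by linarith
  rw [Free_iff (by linarith), KF_iff hκ]
  constructor
  · rintro hF s p ⟨hp, hrun⟩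
    have hpos := hh_pos hκ hp
    set h := hh ((α:ℝ) - 1) p with hh_def
    have htot : s + p + h ≤ w.length := by
      obtain ⟨c, _, g2⟩ := hrun (h - 1) (by omega)
      have := (List.getElem?_eq_some_iff.mp g2).1
      omega
    have h1 := le_hh ((α:ℝ) - 1) p
    rw [← hh_def] at h1
    obtain ⟨j, hj, hne⟩ := hF s (p + h) p hp (by
      have h2 : (α:ℝ) * p ≤ ((p + h : ℕ) : ℝ) := by push_cast; linarith
      exact_mod_cast h2) (by omega)
    obtain ⟨c, g1, g2⟩ := hrun j (by omega)
    apply hne
    rw [g1, g2]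
  · intro hK i e p hp he hi
    by_contra hcon
    push Not at hcon
    have her : (α:ℝ) * p ≤ (e:ℝ) := by exact_mod_cast he
    have hp0 : (0:ℝ) < p := by exact_mod_cast hp
    have hpe : p ≤ e := by
      have : (p:ℝ) ≤ e := by nlinarith
      exact_mod_cast this
    have hh1 : hh ((α:ℝ) - 1) p ≤ e - p := by
      unfold hh
      apply Nat.ceil_le.mpr
      rw [Nat.cast_sub hpe]
      linarith
    apply hK i p
    refine ⟨hp, fun j hj => ?_⟩
    have hlt : i + j < w.length := by omega
    refine ⟨w[i+j], List.getElem?_eq_getElem hlt, ?_⟩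
    rw [← hcon j (by omega)]
    exact List.getElem?_eq_getElem hlt

lemma exists_long {S : Set (List (Fin k))} (h : S.Infinite) (n : ℕ) :
    ∃ x ∈ S, n ≤ x.length := by
  by_contra hcon
  push Not at hcon
  apply h
  exact (List.finite_length_lt (Fin k) n).subset (fun x hx => hcon x hx)

lemma infinite_of_long {S : Set (List (Fin k))} (h : ∀ n, ∃ x ∈ S, n ≤ x.length) :
    S.Infinite := by
  intro hfin
  obtain ⟨n, hn⟩ := len_bound hfin
  obtain ⟨x, hx, hx2⟩ := h n
  have := hn x hx
  omega

/-- The transition property over large alphabets. -/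
theorem TP_large {α : ℚ} (h1 : 1 < α) (h2 : α ≤ 2) (hk : 102 ≤ ((α:ℝ) - 1) * k) : TP k α := by
  classical
  have hαr : (1:ℝ) < (α:ℝ) := by exact_mod_cast h1
  have hα2 : (α:ℝ) ≤ 2 := by exact_mod_cast h2
  set κ := (α:ℝ) - 1 with hκdef
  have hκ : 0 < κ := by linarith
  have hκ1 : κ ≤ 1 := by linarith
  intro u v hu hv
  obtain ⟨x, hx, hxl⟩ := exists_long hv (20 * v.length + 1)
  obtain ⟨y, hy, hyl⟩ := exists_long hu (20 * u.length + 1)
  have hx' : KF κ (x ++ v) := (free_iff_KF h1 _).mp hx
  have hy' : KF κ (y.reverse ++ u.reverse) := by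
    rw [← List.reverse_append]
    exact KF_reverse hκ ((free_iff_KF h1 _).mp hy)
  obtain ⟨z1, x1, hz1, hR1⟩ := chain hκ v x hx' hxl
  obtain ⟨z2, y1, hz2, hR2⟩ := chain hκ u.reverse y.reverse hy' (by simpa using hyl)
  have hV : KF κ (x1 ++ v) := by
    rw [hz1, List.append_assoc] at hx'
    exact KF_suffix hκ hx'
  have hU : KF κ (y1 ++ u.reverse) := by
    rw [hz2, List.append_assoc] at hy'
    exact KF_suffix hκ hy'
  obtain ⟨hK1, hK2⟩ := KC_bounds hκ hκ1
  set K := SS (κ/2) + 21 with hKdef
  have hone : 1 ≤ 1 / κ := by rw [le_div_iff₀ hκ]; linarith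
  have e8 : (8:ℝ) / κ = 8 * (1/κ) := by ring
  have hkκ : 102 * (1/κ) ≤ k := by
    have : 102 * (1/κ) = 102 / κ := by ring
    rw [this, div_le_iff₀ hκ]; linarith
  set f := ⌊8 / κ + 42⌋₊ + 1 with hf
  have hfup : (f:ℝ) ≤ 8 / κ + 43 := by
    rw [hf]; push_cast
    have := Nat.floor_le (a := 8 / κ + 42) (by positivity)
    linarith
  have hflow : 8 / κ + 42 < f := by
    rw [hf]; push_cast
    exact Nat.lt_floor_add_one _
  have hfk : f ≤ (Finset.univ : Finset (Fin k)).card := by
    rw [Finset.card_univ, Fintype.card_fin]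
    have : (f:ℝ) ≤ k := by linarith
    exact_mod_cast this
  obtain ⟨F, _, hF⟩ := Finset.exists_subset_card_eq hfk
  have hG : ((Fᶜ : Finset (Fin k)).card : ℝ) = k - f := by
    rw [Finset.card_compl, hF, Fintype.card_fin]
    rw [Finset.card_univ, Fintype.card_fin] at hfk
    rw [Nat.cast_sub hfk]
  obtain ⟨m, hm⟩ := connect (K := K) hκ hκ1 (F := F) (G := Fᶜ) disjoint_compl_right
    (by rw [hF]; linarith) (by rw [hG]; linarith) hK1 hU hV hR2 hR1
  refine ⟨y1.reverse ++ m ++ x1, ?_⟩
  rw [free_iff_KF h1]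
  rw [List.reverse_append, List.reverse_reverse] at hm
  have e : u ++ (y1.reverse ++ m ++ x1) ++ v = u ++ y1.reverse ++ m ++ (x1 ++ v) := by simp
  rw [e]
  exact hm

/-- Linear criterion for left extendability. -/
theorem left_iff {α : ℚ} (h1 : 1 < α) (h2 : α ≤ 2) (hk : 51 ≤ ((α:ℝ) - 1) * k)
    (u : List (Fin k)) :
    {x : List (Fin k) | Free α (x ++ u)}.Infinite ↔
      ∃ x ∈ words k (20 * u.length + 1), Free α (x ++ u) := by
  have hαr : (1:ℝ) < (α:ℝ) := by exact_mod_cast h1
  have hα2 : (α:ℝ) ≤ 2 := by exact_mod_cast h2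
  set κ := (α:ℝ) - 1 with hκdef
  have hκ : 0 < κ := by linarith
  have hκ1 : κ ≤ 1 := by linarith
  constructor
  · intro h
    obtain ⟨x, hx, hxl⟩ := exists_long h (20 * u.length + 1)
    refine ⟨x.drop (x.length - (20 * u.length + 1)), ?_, ?_⟩
    · rw [mem_words, List.length_drop]; omega
    · have hx' : Free α (x ++ u) := hx
      rw [← List.take_append_drop (x.length - (20 * u.length + 1)) x, List.append_assoc] at hx'
      exact Free_right hx'
  · rintro ⟨x, hxl, hx⟩
    rw [mem_words] at hxl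
    obtain ⟨z1, x1, hz1, hR1⟩ := chain hκ u x ((free_iff_KF h1 _).mp hx) (by omega)
    have hV : KF κ (x1 ++ u) := by
      have hx' := (free_iff_KF h1 _).mp hx
      rw [hz1, List.append_assoc] at hx'
      exact KF_suffix hκ hx'
    obtain ⟨hK1, hK2⟩ := KC_bounds hκ hκ1
    have hone : 1 ≤ 1 / κ := by rw [le_div_iff₀ hκ]; linarith
    have e8 : (8:ℝ) / κ = 8 * (1/κ) := by ring
    have hkκ : 51 * (1/κ) ≤ k := by
      have : 51 * (1/κ) = 51 / κ := by ring
      rw [this, div_le_iff₀ hκ]; linarith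
    apply infinite_of_long
    intro n
    obtain ⟨T, hT1, hT2⟩ := extend (K := SS (κ/2) + 21) hκ (F := (Finset.univ : Finset (Fin k)))
      (by rw [Finset.card_univ, Fintype.card_fin]; linarith) hK1 hV hR1 n
    refine ⟨T ++ x1, ?_, ?_⟩
    · change Free α (T ++ x1 ++ u)
      rw [free_iff_KF h1, List.append_assoc]
      exact hT2
    · rw [List.length_append]; omega

/-- Linear criterion for right extendability. -/
theorem right_iff {α : ℚ} (h1 : 1 < α) (h2 : α ≤ 2) (hk : 51 ≤ ((α:ℝ) - 1) * k)
    (u : List (Fin k)) :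
    {x : List (Fin k) | Free α (u ++ x)}.Infinite ↔
      ∃ x ∈ words k (20 * u.length + 1), Free α (u ++ x) := by
  have hrev : ∀ x : List (Fin k), Free α (u ++ x) ↔ Free α (x.reverse ++ u.reverse) := by
    intro x
    rw [← List.reverse_append]
    constructor
    · exact fun h => Free_reverse h
    · intro h
      have := Free_reverse h
      rwa [List.reverse_reverse] at this
  have h3 : {x : List (Fin k) | Free α (u ++ x)}.Infinite ↔
      {x : List (Fin k) | Free α (x ++ u.reverse)}.Infinite := by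
    constructor
    · intro h
      apply infinite_of_long
      intro n
      obtain ⟨x, hx, hxl⟩ := exists_long h n
      exact ⟨x.reverse, (hrev x).mp hx, by simpa using hxl⟩
    · intro h
      apply infinite_of_long
      intro n
      obtain ⟨x, hx, hxl⟩ := exists_long h n
      refine ⟨x.reverse, ?_, by simpa using hxl⟩
      change Free α (u ++ x.reverse)
      rw [hrev, List.reverse_reverse]
      exact hx
  rw [h3, left_iff h1 h2 hk, List.length_reverse]
  constructor
  · rintro ⟨x, hx, hx2⟩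
    refine ⟨x.reverse, ?_, ?_⟩
    · rw [mem_words] at hx ⊢; simpa using hx
    · rw [hrev, List.reverse_reverse]; exact hx2
  · rintro ⟨x, hx, hx2⟩
    refine ⟨x.reverse, ?_, ?_⟩
    · rw [mem_words] at hx ⊢; simpa using hx
    · exact (hrev x).mp hx2

lemma computable_of_primrec {P : List (Fin k) → Prop} (h : PrimrecPred P) : ComputablePred P := by
  classical
  exact ⟨inferInstance, (h.decide).to_comp⟩

theorem computable_left {α : ℚ} (h1 : 1 < α) (h2 : α ≤ 2) (hk : 51 ≤ ((α:ℝ) - 1) * k) :
    ComputablePred fun u : List (Fin k) => {x : List (Fin k) | Free α (x ++ u)}.Infinite := by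
  refine ComputablePred.of_eq (p := fun u : List (Fin k) =>
    ∃ x ∈ words k (20 * u.length + 1), Free α (x ++ u)) ?_ fun u => (left_iff h1 h2 hk u).symm
  apply computable_of_primrec
  have hlen : Primrec fun u : List (Fin k) => words k (20 * u.length + 1) :=
    pr_words.comp (Primrec.succ.comp (Primrec.nat_mul.comp (Primrec.const 20) Primrec.list_length))
  refine pp_exists hlen ?_
  exact (pp_free (k := k) h1.le).comp (Primrec.list_append.comp Primrec.snd Primrec.fst)

theorem computable_right {α : ℚ} (h1 : 1 < α) (h2 : α ≤ 2) (hk : 51 ≤ ((α:ℝ) - 1) * k) :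
    ComputablePred fun u : List (Fin k) => {x : List (Fin k) | Free α (u ++ x)}.Infinite := by
  refine ComputablePred.of_eq (p := fun u : List (Fin k) =>
    ∃ x ∈ words k (20 * u.length + 1), Free α (u ++ x)) ?_ fun u => (right_iff h1 h2 hk u).symm
  apply computable_of_primrec
  have hlen : Primrec fun u : List (Fin k) => words k (20 * u.length + 1) :=
    pr_words.comp (Primrec.succ.comp (Primrec.nat_mul.comp (Primrec.const 20) Primrec.list_length))
  refine pp_exists hlen ?_
  exact (pp_free (k := k) h1.le).comp (Primrec.list_append.comp Primrec.fst Primrec.snd)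

end H42PG
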