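import Pool.Agent.H42.PG.Two
import Pool.Agent.H42.PG.Bridge

namespace H42PG

open H42PF
open Pool.Agent.Helper131 (Free)
open Pool.Agent.Helper131.Trans
open Pool.Agent.Helper131.Comp

section ext

variable {α : Type*} [DecidableEq α]

/-- A word with long power-free two-sided extensions has two-sided extensions of all lengths. -/
lemma two_ext {κ : ℝ} (hκ : 0 < κ) (hκ1 : κ ≤ 1) {A F : Finset α} (hAF : Disjoint A F)
    (hA : 2 * (SS (κ/2) + 43) < A.card) (hF : 2 * (SS (κ/2) + 43) < F.card)
    (v u y : List α) (hx : KF κ (v ++ u ++ y)) (hv : v.length = 20 * u.length + 1)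
    (hy : y.length = 20 * u.length + 1) (n : ℕ) :
    ∃ v' y', v'.length = 20 * u.length + 1 + n ∧ y'.length = 20 * u.length + 1 + n ∧
      KF κ (v' ++ u ++ y') := by
  have hS := SS_pos (θ := κ/2) (by positivity)
  have hvr : (v.length:ℝ) = 20 * u.length + 1 := by exact_mod_cast hv
  have hyr : (y.length:ℝ) = 20 * u.length + 1 := by exact_mod_cast hy
  obtain ⟨z1, v1, hz1, hR1⟩ := chain2 (C := 41) hκ (u ++ y) v
    (by rw [← List.append_assoc]; exact hx)
    (by rw [List.length_append]; push_cast; rw [hvr, hyr]; linarith)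
  have hxr : KF κ (y.reverse ++ (v ++ u).reverse) := by
    rw [← List.reverse_append]; exact KF_reverse hκ hx
  obtain ⟨z2, y2, hz2, hR2⟩ := chain2 (C := 41) hκ (v ++ u).reverse y.reverse hxr
    (by rw [List.length_reverse, List.length_reverse, List.length_append]; push_cast
        rw [hvr, hyr]; linarith)
  set y1 := y2.reverse with hy1
  have hyy : y = y1 ++ z2.reverse := by
    have := congrArg List.reverse hz2
    rw [List.reverse_reverse, List.reverse_append] at this
    exact this
  set z := v1 ++ u ++ y1 with hz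
  have hzz : v ++ u ++ y = z1 ++ (z ++ z2.reverse) := by
    rw [hz]
    nth_rewrite 1 [hz1]
    nth_rewrite 1 [hyy]
    simp
  have hKz : KF κ z := by
    rw [hzz] at hx
    exact KF_prefix hκ (KF_suffix hκ hx)
  have hRz : RR κ z ≤ SS (κ/2) + 41 := by
    refine le_trans (RR_append_le κ z z2.reverse) ?_
    have e : z ++ z2.reverse = v1 ++ (u ++ y) := by
      rw [hz, hyy]; simp
    rw [e]; exact hR1
  have hRz' : RR κ z.reverse ≤ SS (κ/2) + 41 := by
    refine le_trans (RR_append_le κ z.reverse z1.reverse) ?_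
    have e : z.reverse ++ z1.reverse = y2 ++ (v ++ u).reverse := by
      rw [hz, hz1, hy1]; simp
    rw [e]; exact hR2
  have hKz' : KF κ z.reverse := KF_reverse hκ hKz
  have hG := RG_thr_le hκ hKz
  have hG' := RG_thr_le hκ hKz'
  have hA0 : (0:ℝ) < A.card := by linarith
  have hF0 : (0:ℝ) < F.card := by linarith
  have hA2 : 2 * (SS (κ/2) + 43) / A.card + SS (κ/2) ≤ SS (κ/2) + 43 := by
    have : 2 * (SS (κ/2) + 43) / A.card < 1 := by rw [div_lt_one hA0]; exact hA
    linarith
  have hF2 : 2 * (SS (κ/2) + 43) / F.card + SS (κ/2) ≤ SS (κ/2) + 43 := by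
    have : 2 * (SS (κ/2) + 43) / F.card < 1 := by rw [div_lt_one hF0]; exact hF
    linarith
  have hthr1 : ∀ w : List α, ∀ p, 1 ≤ p → 1 ≤ thr κ w p := by
    intro w p hp
    have h1 := le_two_thr (κ := κ) (z := w) (p := p)
    have h2 := hh_pos hκ hp
    omega
  obtain ⟨T, hT1, hT2, hT3, _⟩ := ggreedy (hthr1 z) (sum_thr_le hκ z) A hA hA2 z
    (fun p hp => lam_lt_thr hκ hKz hp) (by linarith) (20 * u.length + 1 + n - v1.length)
  obtain ⟨W, hW1, hW2, hW3, _⟩ := ggreedy (hthr1 z.reverse) (sum_thr_le hκ z.reverse) F hF hF2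
    z.reverse (fun p hp => lam_lt_thr hκ hKz' hp) (by linarith)
    (20 * u.length + 1 + n - y1.length)
  have hTz : KF κ (T ++ z) := KF_of_drop hKz T
    (fun e p hp => lt_of_lt_of_le (hT3 e p hp) (thr_le hκ hKz hp))
  have hWz : KF κ (W ++ z.reverse) := KF_of_drop hKz' W
    (fun e p hp => lt_of_lt_of_le (hW3 e p hp) (thr_le hκ hKz' hp))
  have hWz' : KF κ (z ++ W.reverse) := by
    have := KF_reverse hκ hWz
    rw [List.reverse_append, List.reverse_reverse] at this
    exact this
  have hjoin := join2 hκ hκ1 hAF hTz hWz' hT2 (fun x hx => hW2 x (List.mem_reverse.mp hx)) hT3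
    (by rw [List.reverse_reverse]; exact hW3)
  have hv1 : v1.length ≤ v.length := by
    rw [hz1, List.length_append]; omega
  have hy1' : y1.length ≤ y.length := by
    rw [hyy, List.length_append]; omega
  refine ⟨T ++ v1, y1 ++ W.reverse, ?_, ?_, ?_⟩
  · rw [List.length_append, hT1]; omega
  · have e : W.reverse.length = W.length := List.length_reverse
    rw [List.length_append, e, hW1]; omega
  · have e : T ++ v1 ++ u ++ (y1 ++ W.reverse) = T ++ (z ++ W.reverse) := by
      rw [hz]; simp
    rw [e]; exact hjoin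

end ext

variable {k : ℕ}

/-- Linear criterion for two-sided extendability. -/
theorem two_iff {α : ℚ} (h1 : 1 < α) (h2 : α ≤ 2) (hk : 190 ≤ ((α:ℝ) - 1) * k)
    (u : List (Fin k)) :
    {z : List (Fin k) | (∃ v y : List (Fin k), z = v ++ u ++ y ∧ v.length = y.length) ∧
        Free α z}.Infinite ↔
      ∃ v ∈ words k (20 * u.length + 1), ∃ y ∈ words k (20 * u.length + 1),
        Free α (v ++ u ++ y) := by
  classical
  have hαr : (1:ℝ) < (α:ℝ) := by exact_mod_cast h1
  have hα2 : (α:ℝ) ≤ 2 := by exact_mod_cast h2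
  set κ := (α:ℝ) - 1 with hκdef
  have hκ : 0 < κ := by linarith
  have hκ1 : κ ≤ 1 := by linarith
  constructor
  · intro h
    obtain ⟨z, ⟨⟨v, y, hz, hvy⟩, hF⟩, hzl⟩ := exists_long h (u.length + 2 * (20 * u.length + 1))
    have hl : v.length + u.length + y.length = z.length := by
      rw [hz]; simp [add_assoc]
    refine ⟨v.drop (v.length - (20 * u.length + 1)), ?_, y.take (20 * u.length + 1), ?_, ?_⟩
    · rw [mem_words, List.length_drop]; omega
    · rw [mem_words, List.length_take]; omega
    · rw [free_iff_KF h1] at hF ⊢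
      rw [hz] at hF
      have e : v ++ u ++ y = v.take (v.length - (20 * u.length + 1)) ++
          ((v.drop (v.length - (20 * u.length + 1)) ++ u ++ y.take (20 * u.length + 1)) ++
            y.drop (20 * u.length + 1)) := by
        nth_rewrite 1 [← List.take_append_drop (v.length - (20 * u.length + 1)) v]
        nth_rewrite 1 [← List.take_append_drop (20 * u.length + 1) y]
        simp only [List.append_assoc]
      rw [e] at hF
      exact KF_prefix hκ (KF_suffix hκ hF)
  · rintro ⟨v, hv, y, hy, hF⟩
    rw [mem_words] at hv hy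
    rw [free_iff_KF h1] at hF
    have hone : 1 ≤ 1 / κ := by rw [le_div_iff₀ hκ]; linarith
    have hSS : SS (κ/2) ≤ 4 / κ := by
      have := SS_le (θ := κ/2) (by positivity) (by linarith)
      have e : 2 / (κ/2) = 4 / κ := by field_simp; norm_num
      linarith
    have e4 : (4:ℝ) / κ = 4 * (1/κ) := by ring
    have hkκ : 190 * (1/κ) ≤ k := by
      have : 190 * (1/κ) = 190 / κ := by ring
      rw [this, div_le_iff₀ hκ]; linarith
    set f := ⌊2 * (SS (κ/2) + 43)⌋₊ + 1 with hf
    have hS := SS_pos (θ := κ/2) (by positivity)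
    have hfup : (f:ℝ) ≤ 2 * (SS (κ/2) + 43) + 1 := by
      rw [hf]; push_cast
      have := Nat.floor_le (a := 2 * (SS (κ/2) + 43)) (by linarith)
      linarith
    have hflow : 2 * (SS (κ/2) + 43) < f := by
      rw [hf]; push_cast
      exact Nat.lt_floor_add_one _
    have hfk : f ≤ (Finset.univ : Finset (Fin k)).card := by
      rw [Finset.card_univ, Fintype.card_fin]
      have : (f:ℝ) ≤ k := by linarith
      exact_mod_cast this
    obtain ⟨F, _, hFc⟩ := Finset.exists_subset_card_eq hfk
    have hG : ((Fᶜ : Finset (Fin k)).card : ℝ) = k - f := by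
      rw [Finset.card_compl, hFc, Fintype.card_fin]
      rw [Finset.card_univ, Fintype.card_fin] at hfk
      rw [Nat.cast_sub hfk]
    apply infinite_of_long
    intro n
    obtain ⟨v', y', hv', hy', hK⟩ := two_ext hκ hκ1 (A := F) (F := Fᶜ) disjoint_compl_right
      (by rw [hFc]; exact hflow) (by rw [hG]; linarith) v u y hF hv hy n
    refine ⟨v' ++ u ++ y', ⟨⟨v', y', rfl, by omega⟩, ?_⟩, ?_⟩
    · rw [free_iff_KF h1]; exact hK
    · rw [List.length_append, List.length_append]; omega

theorem computable_two {α : ℚ} (h1 : 1 < α) (h2 : α ≤ 2) (hk : 190 ≤ ((α:ℝ) - 1) * k) :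
    ComputablePred fun u : List (Fin k) =>
      {z : List (Fin k) | (∃ v y : List (Fin k), z = v ++ u ++ y ∧ v.length = y.length) ∧
        Free α z}.Infinite := by
  refine ComputablePred.of_eq (p := fun u : List (Fin k) =>
    ∃ v ∈ words k (20 * u.length + 1), ∃ y ∈ words k (20 * u.length + 1),
      Free α (v ++ u ++ y)) ?_ fun u => (two_iff h1 h2 hk u).symm
  apply computable_of_primrec
  have hlen : Primrec fun u : List (Fin k) => words k (20 * u.length + 1) :=
    pr_words.comp (Primrec.succ.comp (Primrec.nat_mul.comp (Primrec.const 20) Primrec.list_length))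
  refine pp_exists hlen ?_
  refine pp_exists (hlen.comp Primrec.fst) ?_
  refine (pp_free (k := k) h1.le).comp ?_
  exact Primrec.list_append.comp
    (Primrec.list_append.comp (Primrec.snd.comp Primrec.fst) (Primrec.fst.comp Primrec.fst))
    Primrec.snd

end H42PG
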