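import Pool.Agent.H42.PG.Base
import Pool.Agent.H42.PG.TwoExt

namespace H42PG

open H42PF
open Pool.Agent.Helper131 (Free)
open Pool.Agent.Helper131.Trans
open Pool.Agent.Helper131.Comp

section base

variable {α : Type*} [DecidableEq α] {b : ℝ}

lemma RB_append_le (hb0 : 0 < b) (hb1 : b ≤ 1/2) (g : ℕ → ℕ) (l m : List α) :
    RB b g l ≤ RB b g (l ++ m) := by
  unfold RB
  rw [List.length_append]
  have h1 : ∑ p ∈ Finset.range l.length, b ^ (g (p+1) - lam l (p+1)) ≤
      ∑ p ∈ Finset.range l.length, b ^ (g (p+1) - lam (l ++ m) (p+1)) := by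
    apply Finset.sum_le_sum
    intro p _
    apply pow_anti hb0 hb1
    have := lam_append_le (p := p+1) (by omega) l m
    omega
  refine le_trans h1 ?_
  apply Finset.sum_le_sum_of_subset_of_nonneg
  · intro i hi
    rw [Finset.mem_range] at hi ⊢
    omega
  · intro i _ _; positivity

lemma per_sum {κ : ℝ} (hκ : 0 < κ) {z : List α} (hz : KF κ z) (hb0 : 0 < b) (hb1 : b ≤ 1/2)
    (n : ℕ) : ∑ p ∈ Finset.range n, (if p + 1 ≤ z.length ∧ lam z (p+1) = z.length - (p+1) then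
      b ^ ((hh κ (p+1) - (z.length - (p+1)) + 1) / 2) else 0) ≤ 2 := by
  classical
  set a := z.length with ha
  set D : ℕ → ℕ := fun p => hh κ (p+1) - (a - (p+1)) with hD
  rw [← Finset.sum_filter]
  set S := Finset.filter (fun p : ℕ => p + 1 ≤ a ∧ lam z (p+1) = a - (p+1)) (Finset.range n)
    with hS
  have hlt : ∀ p ∈ S, a - (p+1) < hh κ (p+1) := by
    intro p hp
    rw [hS, Finset.mem_filter] at hp
    have := KF_lam hκ hz (p := p+1) (by omega)
    omega
  have h3 : ∑ p ∈ S, (1/2 : ℝ) ^ ((D p + 1) / 2) ≤ 2 := by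
    apply inj_sum
    · intro p hp q hq hpq
      have g1 := hlt p hp
      have g2 := hlt q hq
      rw [hS, Finset.mem_filter, Finset.mem_range] at hp hq
      simp only [hD] at hpq
      rcases lt_trichotomy p q with h | h | h
      · have := hh_mono hκ.le (by omega : p + 1 ≤ q + 1)
        omega
      · exact h
      · have := hh_mono hκ.le (by omega : q + 1 ≤ p + 1)
        omega
    · intro p hp
      have g1 := hlt p hp
      simp only [hD]
      omega
  refine le_trans (Finset.sum_le_sum ?_) h3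
  intro p _
  exact pow_le_pow_left₀ hb0.le hb1 _

lemma RB_thr_le {κ : ℝ} (hκ : 0 < κ) {z : List α} (hz : KF κ z) (hb0 : 0 < b)
    (hb1 : b ≤ 1/2) : RB b (thr κ z) z ≤ RB b (hh κ) z + 2 := by
  have h1 : ∀ p ∈ Finset.range z.length, b ^ (thr κ z (p+1) - lam z (p+1)) ≤
      b ^ (hh κ (p+1) - lam z (p+1)) +
        (if p + 1 ≤ z.length ∧ lam z (p+1) = z.length - (p+1) then
          b ^ ((hh κ (p+1) - (z.length - (p+1)) + 1) / 2) else 0) := by
    intro p hp
    unfold thr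
    have h0 : 0 < b ^ (hh κ (p+1) - lam z (p+1)) := pow_pos hb0 _
    by_cases h : p + 1 ≤ z.length ∧ lam z (p+1) = z.length - (p+1)
    · rw [if_pos h, if_pos h]
      have e : z.length - (p+1) + (hh κ (p+1) - (z.length - (p+1)) + 1) / 2 - lam z (p+1) =
          (hh κ (p+1) - (z.length - (p+1)) + 1) / 2 := by omega
      rw [e]
      linarith
    · rw [if_neg h, if_neg h]
      linarith
  unfold RB
  refine le_trans (Finset.sum_le_sum h1) ?_
  rw [Finset.sum_add_distrib]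
  have := per_sum hκ hz hb0 hb1 z.length
  linarith

lemma sum_b_thr {κ : ℝ} (hκ : 0 < κ) (hκ1 : κ ≤ 1) {z : List α} (hz : KF κ z) (hb0 : 0 < b)
    (hb1 : b ≤ 1/2) (n : ℕ) :
    ∑ p ∈ Finset.range n, b ^ (thr κ z (p+1)) ≤ (1/κ) * (b / (1-b)) + 2 := by
  have h1 : ∀ p ∈ Finset.range n, b ^ (thr κ z (p+1)) ≤ b ^ (hh κ (p+1)) +
        (if p + 1 ≤ z.length ∧ lam z (p+1) = z.length - (p+1) then
          b ^ ((hh κ (p+1) - (z.length - (p+1)) + 1) / 2) else 0) := by
    intro p _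
    unfold thr
    have h0 : 0 < b ^ (hh κ (p+1)) := pow_pos hb0 _
    split_ifs with h
    · have h2 : b ^ (z.length - (p+1) + (hh κ (p+1) - (z.length - (p+1)) + 1) / 2) ≤
          b ^ ((hh κ (p+1) - (z.length - (p+1)) + 1) / 2) := pow_anti hb0 hb1 (by omega)
      linarith
    · linarith
  refine le_trans (Finset.sum_le_sum h1) ?_
  rw [Finset.sum_add_distrib]
  have g1 := per_sum hκ hz hb0 hb1 n
  have g2 := sum_b_hh hκ hκ1 hb0 hb1 n
  linarith

/-- Words of small weight are infinitely extendable. -/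
lemma extendB {κ K : ℝ} (hκ : 0 < κ) (hκ1 : κ ≤ 1) (hb0 : 0 < b) (hb1 : b ≤ 1/2) {F : Finset α}
    (hF1 : K / b < F.card) (hK : 1 + (1/κ) * (b / (1-b)) ≤ K) {V : List α} (hV : KF κ V)
    (hRV : RB b (hh κ) V ≤ K) (n : ℕ) :
    ∃ T : List α, T.length = n ∧ (∀ x ∈ T, x ∈ F) ∧ KF κ (T ++ V) := by
  obtain ⟨T, h1, h2, h3, _⟩ := bgreedy hb0 hb1 (g := hh κ) (fun p hp => hh_pos hκ hp)
    (sum_b_hh hκ hκ1 hb0 hb1) F hF1 hK V (fun p hp => KF_lam hκ hV hp) hRV n
  exact ⟨T, h1, h2, KF_of_drop hV T h3⟩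

/-- Two words of small weight can be connected. -/
lemma connectB {κ K : ℝ} (hκ : 0 < κ) (hκ1 : κ ≤ 1) (hb0 : 0 < b) (hb1 : b ≤ 1/2)
    {F G : Finset α} (hFG : Disjoint F G)
    (hF1 : K / b < F.card) (hG1 : K / b < G.card) (hK : 1 + (1/κ) * (b / (1-b)) ≤ K)
    {Ur V : List α} (hU : KF κ Ur) (hV : KF κ V) (hRU : RB b (hh κ) Ur ≤ K)
    (hRV : RB b (hh κ) V ≤ K) :
    ∃ m, KF κ (Ur.reverse ++ m ++ V) := by
  set c := Ur.length with hb
  set u := V.length with hu
  set L := ⌈4 * ((c:ℝ) + 1) / κ⌉₊ + u + 5 with hL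
  have hLκ : 4 * ((c:ℝ) + 1) ≤ κ * L := by
    have g1 : 4 * ((c:ℝ) + 1) / κ ≤ ⌈4 * ((c:ℝ) + 1) / κ⌉₊ := Nat.le_ceil _
    rw [div_le_iff₀ hκ] at g1
    rw [hL]; push_cast
    have : (0:ℝ) ≤ u := by positivity
    nlinarith
  set t := ⌈(2 * (u:ℝ) + c + 4) / κ⌉₊ with ht
  have htκ : 2 * (u:ℝ) + c + 4 ≤ κ * t := by
    have g1 : (2 * (u:ℝ) + c + 4) / κ ≤ t := Nat.le_ceil _
    rw [div_le_iff₀ hκ] at g1
    linarith
  obtain ⟨T1, hT1, hT1G, hT1K⟩ := extendB hκ hκ1 hb0 hb1 hG1 hK hV hRV t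
  obtain ⟨T2, hT2, hT2F, hT2K⟩ := extendB hκ hκ1 hb0 hb1 hF1 hK hU hRU L
  have hrev : (T2 ++ Ur).reverse = Ur.reverse ++ T2.reverse := by rw [List.reverse_append]
  refine ⟨T2.reverse ++ T1, ?_⟩
  have e : Ur.reverse ++ (T2.reverse ++ T1) ++ V = (T2 ++ Ur).reverse ++ (T1 ++ V) := by
    rw [hrev]; simp
  rw [e]
  apply join (F := F) (b := c) (L := L) hκ hκ1 (KF_reverse hκ hT2K)
  · rw [List.length_reverse, List.length_append, hT2]; omega
  · exact hT1K
  · intro x hx hxF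
    exact (Finset.disjoint_left.mp hFG hxF) (hT1G x hx)
  · intro i d hi1 hi2 hc
    rw [hrev, List.getElem?_append_right (by rw [List.length_reverse]; omega),
      List.length_reverse] at hc
    have h1 : d ∈ T2.reverse := List.mem_of_getElem? hc
    rw [List.mem_reverse] at h1
    exact hT2F d h1
  · exact hLκ
  · omega
  · rw [hT1]; exact htκ

/-- A word with long power-free two-sided extensions has two-sided extensions of all lengths. -/
lemma two_extB {κ K : ℝ} (hκ : 0 < κ) (hκ1 : κ ≤ 1) (hb0 : 0 < b) (hb1 : b ≤ 1/2)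
    {A F : Finset α} (hAF : Disjoint A F)
    (hKdef : K = (1/κ) * (b + 2 * b * (b / (1-b))) + 43)
    (hA : K / b < A.card) (hF : K / b < F.card)
    (v u y : List α) (hx : KF κ (v ++ u ++ y)) (hv : v.length = 20 * u.length + 1)
    (hy : y.length = 20 * u.length + 1) (n : ℕ) :
    ∃ v' y', v'.length = 20 * u.length + 1 + n ∧ y'.length = 20 * u.length + 1 + n ∧
      KF κ (v' ++ u ++ y') := by
  have hK1 : 1 + ((1/κ) * (b / (1-b)) + 2) ≤ K := by
    rw [hKdef]
    have h1 : (0:ℝ) < 1 - b := by linarith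
    have h2 : b / (1-b) ≤ b + 2 * b * (b / (1-b)) := by
      have e : b + 2 * b * (b/(1-b)) - b/(1-b) = b^2/(1-b) := by field_simp; ring
      have : 0 ≤ b^2/(1-b) := by positivity
      linarith
    have h3 : (1/κ) * (b / (1-b)) ≤ (1/κ) * (b + 2 * b * (b / (1-b))) :=
      mul_le_mul_of_nonneg_left h2 (by positivity)
    linarith
  have hvr : (v.length:ℝ) = 20 * u.length + 1 := by exact_mod_cast hv
  have hyr : (y.length:ℝ) = 20 * u.length + 1 := by exact_mod_cast hy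
  obtain ⟨z1, v1, hz1, hR1⟩ := chainB (C := 41) hκ hκ1 hb0 hb1 (u ++ y) v
    (by rw [← List.append_assoc]; exact hx)
    (by rw [List.length_append]; push_cast; rw [hvr, hyr]; linarith)
  have hxr : KF κ (y.reverse ++ (v ++ u).reverse) := by
    rw [← List.reverse_append]; exact KF_reverse hκ hx
  obtain ⟨z2, y2, hz2, hR2⟩ := chainB (C := 41) hκ hκ1 hb0 hb1 (v ++ u).reverse y.reverse hxr
    (by rw [List.length_reverse, List.length_reverse, List.length_append]; push_cast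
        rw [hvr, hyr]; linarith)
  set y1 := y2.reverse with hy1
  have hyy : y = y1 ++ z2.reverse := by
    have := congrArg List.reverse hz2
    rw [List.reverse_reverse, List.reverse_append] at this
    exact this
  set z := v1 ++ u ++ y1 with hz
  have hzz : v ++ u ++ y = z1 ++ (z ++ z2.reverse) := by
    rw [hz]
    nth_rewrite 1 [hz1]
    nth_rewrite 1 [hyy]
    simp
  have hKz : KF κ z := by
    rw [hzz] at hx
    exact KF_prefix hκ (KF_suffix hκ hx)
  have hRz : RB b (hh κ) z ≤ K - 2 := by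
    refine le_trans (RB_append_le hb0 hb1 (hh κ) z z2.reverse) ?_
    have e : z ++ z2.reverse = v1 ++ (u ++ y) := by
      rw [hz, hyy]; simp
    rw [e, hKdef]; linarith
  have hRz' : RB b (hh κ) z.reverse ≤ K - 2 := by
    refine le_trans (RB_append_le hb0 hb1 (hh κ) z.reverse z1.reverse) ?_
    have e : z.reverse ++ z1.reverse = y2 ++ (v ++ u).reverse := by
      rw [hz, hz1, hy1]; simp
    rw [e, hKdef]; linarith
  have hKz' : KF κ z.reverse := KF_reverse hκ hKz
  have hG := RB_thr_le hκ hKz hb0 hb1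
  have hG' := RB_thr_le hκ hKz' hb0 hb1
  have hthr1 : ∀ w : List α, ∀ p, 1 ≤ p → 1 ≤ thr κ w p := by
    intro w p hp
    have h1 := le_two_thr (κ := κ) (z := w) (p := p)
    have h2 := hh_pos hκ hp
    omega
  obtain ⟨T, hT1, hT2, hT3, _⟩ := bgreedy hb0 hb1 (hthr1 z) (sum_b_thr hκ hκ1 hKz hb0 hb1) A hA
    hK1 z (fun p hp => lam_lt_thr hκ hKz hp) (by linarith) (20 * u.length + 1 + n - v1.length)
  obtain ⟨W, hW1, hW2, hW3, _⟩ := bgreedy hb0 hb1 (hthr1 z.reverse)
    (sum_b_thr hκ hκ1 hKz' hb0 hb1) F hF hK1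
    z.reverse (fun p hp => lam_lt_thr hκ hKz' hp) (by linarith)
    (20 * u.length + 1 + n - y1.length)
  have hTz : KF κ (T ++ z) := KF_of_drop hKz T
    (fun e p hp => lt_of_lt_of_le (hT3 e p hp) (thr_le hκ hKz hp))
  have hWz : KF κ (W ++ z.reverse) := KF_of_drop hKz' W
    (fun e p hp => lt_of_lt_of_le (hW3 e p hp) (thr_le hκ hKz' hp))
  have hWz' : KF κ (z ++ W.reverse) := by
    have := KF_reverse hκ hWz
    rw [List.reverse_append, List.reverse_reverse] at this
    exact this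
  have hjoin := join2 hκ hκ1 hAF hTz hWz' hT2 (fun x hx => hW2 x (List.mem_reverse.mp hx)) hT3
    (by rw [List.reverse_reverse]; exact hW3)
  have hv1 : v1.length ≤ v.length := by
    rw [hz1, List.length_append]; omega
  have hy1' : y1.length ≤ y.length := by
    rw [hyy, List.length_append]; omega
  refine ⟨T ++ v1, y1 ++ W.reverse, ?_, ?_, ?_⟩
  · rw [List.length_append, hT1]; omega
  · have e : W.reverse.length = W.length := List.length_reverse
    rw [List.length_append, e, hW1]; omega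
  · have e : T ++ v1 ++ u ++ (y1 ++ W.reverse) = T ++ (z ++ W.reverse) := by
      rw [hz]; simp
    rw [e]; exact hjoin

end base

/-- choice of the base, one-sided -/
lemma param1 {κ : ℝ} (hκ : 0 < κ) (hκ1 : κ ≤ 1) : ∃ b K : ℝ, 0 < b ∧ b ≤ 1/2 ∧
    K = (1/κ) * (b + 2 * b * (b / (1-b))) + 21 ∧
    K / b ≤ 1/κ + 13 * √(1/κ) + 31 ∧ 1 + (1/κ) * (b / (1-b)) ≤ K := by
  set s := √(1/κ) with hs
  have hone : 1 ≤ 1/κ := by rw [le_div_iff₀ hκ]; linarith
  have hs1 : 1 ≤ s := by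
    rw [hs]
    exact Real.one_le_sqrt.mpr hone
  have hs2 : 1/κ = s^2 := by rw [hs, Real.sq_sqrt (by positivity)]
  refine ⟨3/(5+s), _, by positivity, ?_, rfl, ?_, ?_⟩
  · rw [div_le_iff₀ (by linarith)]; linarith
  · rw [hs2]
    have h1 : (5 + s) ≠ 0 := by positivity
    have h2 : (2 + s) ≠ 0 := by positivity
    have e0 : 1 - 3/(5+s) = (2+s)/(5+s) := by field_simp; ring
    rw [e0]
    have e1 : (s ^ 2 * (3 / (5 + s) + 2 * (3 / (5 + s)) * (3 / (5 + s) / ((2 + s) / (5 + s)))) + 21)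
        / (3 / (5 + s)) = s^2 + 6 * s^2/(2+s) + 35 + 7 * s := by
      field_simp
      ring
    rw [e1]
    have h3 : 6 * s^2/(2+s) ≤ 6 * s - 4 := by
      rw [div_le_iff₀ (by positivity)]
      nlinarith
    linarith
  · have h1 : (0:ℝ) < 1 - 3/(5+s) := by
      have : 3/(5+s) ≤ 1/2 := by rw [div_le_iff₀ (by linarith)]; linarith
      linarith
    set b := 3/(5+s) with hb
    have hb0 : 0 < b := by positivity
    have h2 : b / (1-b) ≤ b + 2 * b * (b / (1-b)) := by
      have e : b + 2 * b * (b/(1-b)) - b/(1-b) = b^2/(1-b) := by field_simp; ring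
      have : 0 ≤ b^2/(1-b) := by positivity
      linarith
    have h3 : (1/κ) * (b / (1-b)) ≤ (1/κ) * (b + 2 * b * (b / (1-b))) :=
      mul_le_mul_of_nonneg_left h2 (by positivity)
    linarith

/-- choice of the base, two-sided -/
lemma param2 {κ : ℝ} (hκ : 0 < κ) (hκ1 : κ ≤ 1) : ∃ b K : ℝ, 0 < b ∧ b ≤ 1/2 ∧
    K = (1/κ) * (b + 2 * b * (b / (1-b))) + 43 ∧
    K / b ≤ 1/κ + 19 * √(1/κ) + 70 := by
  set s := √(1/κ) with hs
  have hone : 1 ≤ 1/κ := by rw [le_div_iff₀ hκ]; linarith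
  have hs1 : 1 ≤ s := by
    rw [hs]
    exact Real.one_le_sqrt.mpr hone
  have hs2 : 1/κ = s^2 := by rw [hs, Real.sq_sqrt (by positivity)]
  refine ⟨4/(7+s), _, by positivity, ?_, rfl, ?_⟩
  · rw [div_le_iff₀ (by linarith)]; linarith
  · rw [hs2]
    have h1 : (7 + s) ≠ 0 := by positivity
    have h2 : (3 + s) ≠ 0 := by positivity
    have e0 : 1 - 4/(7+s) = (3+s)/(7+s) := by field_simp; ring
    rw [e0]
    have e1 : (s ^ 2 * (4 / (7 + s) + 2 * (4 / (7 + s)) * (4 / (7 + s) / ((3 + s) / (7 + s)))) + 43)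
        / (4 / (7 + s)) = s^2 + 8 * s^2/(3+s) + 43 * 7 / 4 + 43 / 4 * s := by
      field_simp
      ring
    rw [e1]
    have h3 : 8 * s^2/(3+s) ≤ 8 * s - 6 := by
      rw [div_le_iff₀ (by positivity)]
      nlinarith
    linarith

end H42PG
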