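import Pool.Agent.H42.PG.BaseTwo

namespace H42PG

open H42PF
open Pool.Agent.Helper131 (Free)
open Pool.Agent.Helper131.Trans
open Pool.Agent.Helper131.Comp

variable {k : ℕ}

/-- The transition property over large alphabets, asymptotic form. -/
theorem TP_large2 {α : ℚ} (h1 : 1 < α) (h2 : α ≤ 2)
    (hk : 2 / ((α:ℝ) - 1) + 26 * √(1 / ((α:ℝ) - 1)) + 63 < k) : TP k α := by
  classical
  have hαr : (1:ℝ) < (α:ℝ) := by exact_mod_cast h1
  have hα2 : (α:ℝ) ≤ 2 := by exact_mod_cast h2
  set κ := (α:ℝ) - 1 with hκdef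
  have hκ : 0 < κ := by linarith
  have hκ1 : κ ≤ 1 := by linarith
  intro u v hu hv
  obtain ⟨b, K, hb0, hb1, hKdef, hKb, hK1⟩ := param1 hκ hκ1
  obtain ⟨x, hx, hxl⟩ := exists_long hv (20 * v.length + 1)
  obtain ⟨y, hy, hyl⟩ := exists_long hu (20 * u.length + 1)
  have hx' : KF κ (x ++ v) := (free_iff_KF h1 _).mp hx
  have hy' : KF κ (y.reverse ++ u.reverse) := by
    rw [← List.reverse_append]
    exact KF_reverse hκ ((free_iff_KF h1 _).mp hy)
  have hxr : (20 * (v.length:ℝ) + 1) ≤ x.length := by exact_mod_cast hxl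
  have hyr : (20 * (u.length:ℝ) + 1) ≤ y.length := by exact_mod_cast hyl
  obtain ⟨z1, x1, hz1, hR1⟩ := chainB (C := 21) hκ hκ1 hb0 hb1 v x hx' (by linarith)
  obtain ⟨z2, y1, hz2, hR2⟩ := chainB (C := 21) hκ hκ1 hb0 hb1 u.reverse y.reverse hy'
    (by rw [List.length_reverse, List.length_reverse]; linarith)
  have hV : KF κ (x1 ++ v) := by
    rw [hz1, List.append_assoc] at hx'
    exact KF_suffix hκ hx'
  have hU : KF κ (y1 ++ u.reverse) := by
    rw [hz2, List.append_assoc] at hy'
    exact KF_suffix hκ hy'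
  rw [← hKdef] at hR1 hR2
  have e2 : 2 / κ = 2 * (1/κ) := by ring
  have hK0 : 0 ≤ K / b := by
    have : 0 ≤ (1/κ) * (b / (1-b)) := by
      have : 0 < 1 - b := by linarith
      positivity
    have : 0 ≤ K := by linarith
    positivity
  set f := ⌊K / b⌋₊ + 1 with hf
  have hfup : (f:ℝ) ≤ K / b + 1 := by
    rw [hf]; push_cast
    have := Nat.floor_le (a := K / b) hK0
    linarith
  have hflow : K / b < f := by
    rw [hf]; push_cast
    exact Nat.lt_floor_add_one _
  have hfk : f ≤ (Finset.univ : Finset (Fin k)).card := by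
    rw [Finset.card_univ, Fintype.card_fin]
    have : (f:ℝ) ≤ k := by linarith
    exact_mod_cast this
  obtain ⟨F, _, hF⟩ := Finset.exists_subset_card_eq hfk
  have hG : ((Fᶜ : Finset (Fin k)).card : ℝ) = k - f := by
    rw [Finset.card_compl, hF, Fintype.card_fin]
    rw [Finset.card_univ, Fintype.card_fin] at hfk
    rw [Nat.cast_sub hfk]
  obtain ⟨m, hm⟩ := connectB (K := K) hκ hκ1 hb0 hb1 (F := F) (G := Fᶜ) disjoint_compl_right
    (by rw [hF]; exact hflow) (by rw [hG]; linarith) hK1 hU hV hR2 hR1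
  refine ⟨y1.reverse ++ m ++ x1, ?_⟩
  rw [free_iff_KF h1]
  rw [List.reverse_append, List.reverse_reverse] at hm
  have e : u ++ (y1.reverse ++ m ++ x1) ++ v = u ++ y1.reverse ++ m ++ (x1 ++ v) := by simp
  rw [e]
  exact hm

/-- Linear criterion for left extendability. -/
theorem left_iff2 {α : ℚ} (h1 : 1 < α) (h2 : α ≤ 2)
    (hk : 1 / ((α:ℝ) - 1) + 13 * √(1 / ((α:ℝ) - 1)) + 31 < k) (u : List (Fin k)) :
    {x : List (Fin k) | Free α (x ++ u)}.Infinite ↔
      ∃ x ∈ words k (20 * u.length + 1), Free α (x ++ u) := by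
  have hαr : (1:ℝ) < (α:ℝ) := by exact_mod_cast h1
  have hα2 : (α:ℝ) ≤ 2 := by exact_mod_cast h2
  set κ := (α:ℝ) - 1 with hκdef
  have hκ : 0 < κ := by linarith
  have hκ1 : κ ≤ 1 := by linarith
  constructor
  · intro h
    obtain ⟨x, hx, hxl⟩ := exists_long h (20 * u.length + 1)
    refine ⟨x.drop (x.length - (20 * u.length + 1)), ?_, ?_⟩
    · rw [mem_words, List.length_drop]; omega
    · have hx' : Free α (x ++ u) := hx
      rw [← List.take_append_drop (x.length - (20 * u.length + 1)) x, List.append_assoc] at hx'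
      exact Free_right hx'
  · rintro ⟨x, hxl, hx⟩
    rw [mem_words] at hxl
    obtain ⟨b, K, hb0, hb1, hKdef, hKb, hK1⟩ := param1 hκ hκ1
    have hxr : (20 * (u.length:ℝ) + 1) = x.length := by exact_mod_cast hxl.symm
    obtain ⟨z1, x1, hz1, hR1⟩ := chainB (C := 21) hκ hκ1 hb0 hb1 u x ((free_iff_KF h1 _).mp hx)
      (by linarith)
    rw [← hKdef] at hR1
    have hV : KF κ (x1 ++ u) := by
      have hx' := (free_iff_KF h1 _).mp hx
      rw [hz1, List.append_assoc] at hx'
      exact KF_suffix hκ hx'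
    apply infinite_of_long
    intro n
    obtain ⟨T, hT1, _, hT2⟩ := extendB (K := K) hκ hκ1 hb0 hb1
      (F := (Finset.univ : Finset (Fin k)))
      (by rw [Finset.card_univ, Fintype.card_fin]; linarith) hK1 hV hR1 n
    refine ⟨T ++ x1, ?_, ?_⟩
    · change Free α (T ++ x1 ++ u)
      rw [free_iff_KF h1, List.append_assoc]
      exact hT2
    · rw [List.length_append]; omega

/-- Linear criterion for right extendability. -/
theorem right_iff2 {α : ℚ} (h1 : 1 < α) (h2 : α ≤ 2)
    (hk : 1 / ((α:ℝ) - 1) + 13 * √(1 / ((α:ℝ) - 1)) + 31 < k) (u : List (Fin k)) :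
    {x : List (Fin k) | Free α (u ++ x)}.Infinite ↔
      ∃ x ∈ words k (20 * u.length + 1), Free α (u ++ x) := by
  have hrev : ∀ x : List (Fin k), Free α (u ++ x) ↔ Free α (x.reverse ++ u.reverse) := by
    intro x
    rw [← List.reverse_append]
    constructor
    · exact fun h => Free_reverse h
    · intro h
      have := Free_reverse h
      rwa [List.reverse_reverse] at this
  have h3 : {x : List (Fin k) | Free α (u ++ x)}.Infinite ↔
      {x : List (Fin k) | Free α (x ++ u.reverse)}.Infinite := by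
    constructor
    · intro h
      apply infinite_of_long
      intro n
      obtain ⟨x, hx, hxl⟩ := exists_long h n
      exact ⟨x.reverse, (hrev x).mp hx, by simpa using hxl⟩
    · intro h
      apply infinite_of_long
      intro n
      obtain ⟨x, hx, hxl⟩ := exists_long h n
      refine ⟨x.reverse, ?_, by simpa using hxl⟩
      change Free α (u ++ x.reverse)
      rw [hrev, List.reverse_reverse]
      exact hx
  rw [h3, left_iff2 h1 h2 hk, List.length_reverse]
  constructor
  · rintro ⟨x, hx, hx2⟩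
    refine ⟨x.reverse, ?_, ?_⟩
    · rw [mem_words] at hx ⊢; simpa using hx
    · rw [hrev, List.reverse_reverse]; exact hx2
  · rintro ⟨x, hx, hx2⟩
    refine ⟨x.reverse, ?_, ?_⟩
    · rw [mem_words] at hx ⊢; simpa using hx
    · exact (hrev x).mp hx2

theorem computable_left2 {α : ℚ} (h1 : 1 < α) (h2 : α ≤ 2)
    (hk : 1 / ((α:ℝ) - 1) + 13 * √(1 / ((α:ℝ) - 1)) + 31 < k) :
    ComputablePred fun u : List (Fin k) => {x : List (Fin k) | Free α (x ++ u)}.Infinite := by
  refine ComputablePred.of_eq (p := fun u : List (Fin k) =>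
    ∃ x ∈ words k (20 * u.length + 1), Free α (x ++ u)) ?_ fun u => (left_iff2 h1 h2 hk u).symm
  apply computable_of_primrec
  have hlen : Primrec fun u : List (Fin k) => words k (20 * u.length + 1) :=
    pr_words.comp (Primrec.succ.comp (Primrec.nat_mul.comp (Primrec.const 20) Primrec.list_length))
  refine pp_exists hlen ?_
  exact (pp_free (k := k) h1.le).comp (Primrec.list_append.comp Primrec.snd Primrec.fst)

theorem computable_right2 {α : ℚ} (h1 : 1 < α) (h2 : α ≤ 2)
    (hk : 1 / ((α:ℝ) - 1) + 13 * √(1 / ((α:ℝ) - 1)) + 31 < k) :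
    ComputablePred fun u : List (Fin k) => {x : List (Fin k) | Free α (u ++ x)}.Infinite := by
  refine ComputablePred.of_eq (p := fun u : List (Fin k) =>
    ∃ x ∈ words k (20 * u.length + 1), Free α (u ++ x)) ?_ fun u => (right_iff2 h1 h2 hk u).symm
  apply computable_of_primrec
  have hlen : Primrec fun u : List (Fin k) => words k (20 * u.length + 1) :=
    pr_words.comp (Primrec.succ.comp (Primrec.nat_mul.comp (Primrec.const 20) Primrec.list_length))
  refine pp_exists hlen ?_
  exact (pp_free (k := k) h1.le).comp (Primrec.list_append.comp Primrec.fst Primrec.snd)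

/-- Linear criterion for two-sided extendability. -/
theorem two_iff2 {α : ℚ} (h1 : 1 < α) (h2 : α ≤ 2)
    (hk : 2 / ((α:ℝ) - 1) + 38 * √(1 / ((α:ℝ) - 1)) + 141 < k) (u : List (Fin k)) :
    {z : List (Fin k) | (∃ v y : List (Fin k), z = v ++ u ++ y ∧ v.length = y.length) ∧
        Free α z}.Infinite ↔
      ∃ v ∈ words k (20 * u.length + 1), ∃ y ∈ words k (20 * u.length + 1),
        Free α (v ++ u ++ y) := by
  classical
  have hαr : (1:ℝ) < (α:ℝ) := by exact_mod_cast h1
  have hα2 : (α:ℝ) ≤ 2 := by exact_mod_cast h2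
  set κ := (α:ℝ) - 1 with hκdef
  have hκ : 0 < κ := by linarith
  have hκ1 : κ ≤ 1 := by linarith
  constructor
  · intro h
    obtain ⟨z, ⟨⟨v, y, hz, hvy⟩, hF⟩, hzl⟩ := exists_long h (u.length + 2 * (20 * u.length + 1))
    have hl : v.length + u.length + y.length = z.length := by
      rw [hz]; simp [add_assoc]
    refine ⟨v.drop (v.length - (20 * u.length + 1)), ?_, y.take (20 * u.length + 1), ?_, ?_⟩
    · rw [mem_words, List.length_drop]; omega
    · rw [mem_words, List.length_take]; omega
    · rw [free_iff_KF h1] at hF ⊢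
      rw [hz] at hF
      have e : v ++ u ++ y = v.take (v.length - (20 * u.length + 1)) ++
          ((v.drop (v.length - (20 * u.length + 1)) ++ u ++ y.take (20 * u.length + 1)) ++
            y.drop (20 * u.length + 1)) := by
        nth_rewrite 1 [← List.take_append_drop (v.length - (20 * u.length + 1)) v]
        nth_rewrite 1 [← List.take_append_drop (20 * u.length + 1) y]
        simp only [List.append_assoc]
      rw [e] at hF
      exact KF_prefix hκ (KF_suffix hκ hF)
  · rintro ⟨v, hv, y, hy, hF⟩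
    rw [mem_words] at hv hy
    rw [free_iff_KF h1] at hF
    obtain ⟨b, K, hb0, hb1, hKdef, hKb⟩ := param2 hκ hκ1
    have e2 : 2 / κ = 2 * (1/κ) := by ring
    have hK0 : 0 ≤ K / b := by
      have h0 : 0 < 1 - b := by linarith
      have : 0 ≤ (1/κ) * (b + 2 * b * (b / (1-b))) := by positivity
      have : 0 ≤ K := by linarith
      positivity
    set f := ⌊K / b⌋₊ + 1 with hf
    have hfup : (f:ℝ) ≤ K / b + 1 := by
      rw [hf]; push_cast
      have := Nat.floor_le (a := K / b) hK0
      linarith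
    have hflow : K / b < f := by
      rw [hf]; push_cast
      exact Nat.lt_floor_add_one _
    have hfk : f ≤ (Finset.univ : Finset (Fin k)).card := by
      rw [Finset.card_univ, Fintype.card_fin]
      have : (f:ℝ) ≤ k := by linarith
      exact_mod_cast this
    obtain ⟨F, _, hFc⟩ := Finset.exists_subset_card_eq hfk
    have hG : ((Fᶜ : Finset (Fin k)).card : ℝ) = k - f := by
      rw [Finset.card_compl, hFc, Fintype.card_fin]
      rw [Finset.card_univ, Fintype.card_fin] at hfk
      rw [Nat.cast_sub hfk]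
    apply infinite_of_long
    intro n
    obtain ⟨v', y', hv', hy', hK⟩ := two_extB hκ hκ1 hb0 hb1 (A := F) (F := Fᶜ)
      disjoint_compl_right hKdef (by rw [hFc]; exact hflow) (by rw [hG]; linarith)
      v u y hF hv hy n
    refine ⟨v' ++ u ++ y', ⟨⟨v', y', rfl, by omega⟩, ?_⟩, ?_⟩
    · rw [free_iff_KF h1]; exact hK
    · rw [List.length_append, List.length_append]; omega

theorem computable_two2 {α : ℚ} (h1 : 1 < α) (h2 : α ≤ 2)
    (hk : 2 / ((α:ℝ) - 1) + 38 * √(1 / ((α:ℝ) - 1)) + 141 < k) :
    ComputablePred fun u : List (Fin k) =>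
      {z : List (Fin k) | (∃ v y : List (Fin k), z = v ++ u ++ y ∧ v.length = y.length) ∧
        Free α z}.Infinite := by
  refine ComputablePred.of_eq (p := fun u : List (Fin k) =>
    ∃ v ∈ words k (20 * u.length + 1), ∃ y ∈ words k (20 * u.length + 1),
      Free α (v ++ u ++ y)) ?_ fun u => (two_iff2 h1 h2 hk u).symm
  apply computable_of_primrec
  have hlen : Primrec fun u : List (Fin k) => words k (20 * u.length + 1) :=
    pr_words.comp (Primrec.succ.comp (Primrec.nat_mul.comp (Primrec.const 20) Primrec.list_length))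
  refine pp_exists hlen ?_
  refine pp_exists (hlen.comp Primrec.fst) ?_
  refine (pp_free (k := k) h1.le).comp ?_
  exact Primrec.list_append.comp
    (Primrec.list_append.comp (Primrec.snd.comp Primrec.fst) (Primrec.fst.comp Primrec.fst))
    Primrec.snd

end H42PG
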