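import Pool.Agent.H42.PF.Rev

namespace H42PG

open H42PF

variable {α : Type*} [DecidableEq α]

lemma GT_nonneg {κ : ℝ} (l : List α) : 0 ≤ GT κ l := by
  induction l with
  | nil => simp [GT]
  | cons a l ih =>
    simp only [GT]
    have : 0 ≤ Gs κ (a :: l) := by
      unfold Gs
      apply Finset.sum_nonneg
      intro p _; exact gw_nonneg _ _ _
    linarith

/-- A long power-free extension passes through a word of small weight. -/
lemma chain {κ : ℝ} (hκ : 0 < κ) (w x : List α) (hx : KF κ (x ++ w))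
    (hlen : 20 * w.length + 1 ≤ x.length) :
    ∃ z y, x = z ++ y ∧ RR κ (y ++ w) ≤ SS (κ/2) + 21 := by
  by_contra hcon
  push Not at hcon
  have h1 : ∀ y z, x = z ++ y → 21 * (y.length:ℝ) ≤ GT κ (y ++ w) := by
    intro y
    induction y with
    | nil => intro z _; simpa using GT_nonneg w
    | cons a y ih =>
      intro z hz
      have h2 := ih (z ++ [a]) (by rw [hz]; simp)
      have h3 := hcon z (a :: y) hz
      have h4 := RR_le_Gs hκ (a :: y ++ w)
      rw [List.cons_append] at h3 h4 ⊢
      simp only [GT]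
      rw [List.length_cons]
      push_cast
      linarith
  have h2 := h1 x [] rfl
  have h3 := GT_le hκ _ hx
  rw [List.length_append] at h3
  have h4 : (20 * (w.length:ℝ) + 1) ≤ x.length := by exact_mod_cast hlen
  push_cast at h3
  linarith

lemma KF_suffix {κ : ℝ} (hκ : 0 < κ) {l m : List α} (h : KF κ (l ++ m)) : KF κ m := by
  induction l with
  | nil => simpa using h
  | cons a l ih => exact ih h.1

/-- Joining two words through letters of disjoint alphabets. -/
lemma join {κ : ℝ} (hκ : 0 < κ) (hκ1 : κ ≤ 1) {F : Finset α} {D T w : List α} {b L : ℕ}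
    (hD : KF κ D) (hDlen : D.length = b + L) (hT3 : KF κ (T ++ w)) (hT2 : ∀ x ∈ T, x ∉ F)
    (hDF : ∀ i c, b ≤ i → i < b + L → D[i]? = some c → c ∈ F)
    (hLκ : 4 * ((b:ℝ) + 1) ≤ κ * L) (hLu : w.length + 5 ≤ L)
    (htκ : 2 * (w.length:ℝ) + b + 4 ≤ κ * T.length) : KF κ (D ++ (T ++ w)) := by
  set u := w.length with hu
  set t := T.length with ht
  set N := b + L with hN
  have hb0 : (0:ℝ) ≤ b := by positivity
  have hu0 : (0:ℝ) ≤ u := by positivity
  have htu : 2 * u + b + 4 ≤ t := by
    have g1 : κ * t ≤ t := by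
      have : (0:ℝ) ≤ t := by positivity
      nlinarith
    have : ((2 * u + b + 4 : ℕ):ℝ) ≤ t := by push_cast; linarith
    exact_mod_cast this
  set V := D ++ (T ++ w) with hV
  have hVlen : V.length = N + t + u := by
    rw [hV, List.length_append, List.length_append, hDlen]
    omega
  have v1 : ∀ i, i < N → V[i]? = D[i]? := by
    intro i hi
    rw [hV, List.getElem?_append_left (by omega)]
  have v2 : ∀ i c, N ≤ i → i < N + t → V[i]? = some c → c ∉ F := by
    intro i c hi1 hi2 hc'
    rw [hV, List.getElem?_append_right (by omega), hDlen,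
      List.getElem?_append_left (by omega)] at hc'
    have h2 : i - N < T.length := by omega
    rw [List.getElem?_eq_getElem h2] at hc'
    have h3 : T[i-N] = c := by simpa using hc'
    have := hT2 (T[i-N]) (List.getElem_mem h2)
    rw [h3] at this
    exact this
  have v3 : ∀ i, V[N + i]? = (T ++ w)[i]? := by
    intro i
    rw [hV, List.getElem?_append_right (by omega), hDlen]
    congr 1; omega
  have vF : ∀ i c, b ≤ i → i < N → V[i]? = some c → c ∈ F := by
    intro i c hi1 hi2 hc'
    rw [v1 i hi2] at hc'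
    exact hDF i c hi1 hi2 hc'
  rw [KF_iff hκ]
  rintro s p ⟨hp, hrun⟩
  have hp' : (1:ℝ) ≤ p := by exact_mod_cast hp
  have hpos := hh_pos hκ hp
  have hκp := le_hh κ p
  set h := hh κ p with hh_def
  have htot : s + p + h ≤ N + t + u := by
    obtain ⟨c, _, g2⟩ := hrun (h-1) (by omega)
    have := (List.getElem?_eq_some_iff.mp g2).1
    omega
  by_cases q1 : N ≤ s
  · apply (KF_iff hκ (T ++ w)).mp hT3 (s - N) p
    refine ⟨hp, fun i hi => ?_⟩
    obtain ⟨c, g1, g2⟩ := hrun i hi
    refine ⟨c, ?_, ?_⟩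
    · rw [← v3]
      have : N + (s - N + i) = s + i := by omega
      rw [this]; exact g1
    · rw [← v3]
      have : N + (s - N + i + p) = s + i + p := by omega
      rw [this]; exact g2
  push Not at q1
  by_cases q2 : s + p + h ≤ N
  · apply (KF_iff hκ D).mp hD s p
    refine ⟨hp, fun i hi => ?_⟩
    rw [← hh_def] at hi
    obtain ⟨c, g1, g2⟩ := hrun i hi
    rw [v1 _ (by omega)] at g1 g2
    exact ⟨c, g1, g2⟩
  push Not at q2
  by_cases q3 : N < s + h
  · obtain ⟨c, g1, g2⟩ := hrun (N - 1 - s) (by omega)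
    have e : s + (N - 1 - s) = N - 1 := by omega
    rw [e] at g1 g2
    have hcF : c ∈ F := vF _ _ (by omega) (by omega) g1
    have f2 : t + 1 ≤ p := by
      by_contra hcon
      exact v2 (N - 1 + p) c (by omega) (by omega) g2 hcF
    have f3 : (2 * u + b + 4 : ℕ) ≤ h := by
      have g1 : κ * t ≤ κ * p := by
        apply mul_le_mul_of_nonneg_left _ hκ.le
        exact_mod_cast (by omega : t ≤ p)
      have : ((2 * u + b + 4 : ℕ):ℝ) ≤ h := by push_cast; linarith
      exact_mod_cast this
    have f4 : p < t + u := by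
      obtain ⟨c2, _, g4⟩ := hrun (N - s) (by omega)
      have e : s + (N - s) = N := by omega
      rw [e] at g4
      have := (List.getElem?_eq_some_iff.mp g4).1
      omega
    obtain ⟨c3, g5, g6⟩ := hrun (N - u - 1 - s) (by omega)
    have e : s + (N - u - 1 - s) = N - u - 1 := by omega
    rw [e] at g5 g6
    exact v2 (N - u - 1 + p) c3 (by omega) (by omega) g6 (vF _ _ (by omega) (by omega) g5)
  · push Not at q3
    set j := s + h - 1 with hj
    obtain ⟨c, g1, g2⟩ := hrun (h-1) (by omega)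
    have e : s + (h - 1) = j := by omega
    rw [e] at g1 g2
    by_cases hjb : j < b
    · have k1 : (h:ℝ) ≤ b := by exact_mod_cast (by omega : h ≤ b)
      have k2 : (L:ℝ) ≤ p := by exact_mod_cast (by omega : L ≤ p)
      have k3 : κ * L ≤ κ * p := mul_le_mul_of_nonneg_left k2 hκ.le
      linarith
    · push Not at hjb
      have hcF : c ∈ F := vF _ _ hjb (by omega) g1
      have f2 : N + t ≤ j + p := by
        by_contra hcon
        exact v2 (j+p) c (by omega) (by omega) g2 hcF
      have f3 : (2 * u + b + 4 : ℕ) ≤ h := by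
        have g1 : κ * t ≤ κ * p := by
          apply mul_le_mul_of_nonneg_left _ hκ.le
          exact_mod_cast (by omega : t ≤ p)
        have : ((2 * u + b + 4 : ℕ):ℝ) ≤ h := by push_cast; linarith
        exact_mod_cast this
      have f4 : N + t ≤ max s b + p := by
        by_contra hcon
        push Not at hcon
        obtain ⟨c2, g3, g4⟩ := hrun (N + t - 1 - p - s) (by omega)
        have e2 : s + (N + t - 1 - p - s) = N + t - 1 - p := by omega
        rw [e2] at g3 g4
        exact v2 (N + t - 1 - p + p) c2 (by omega) (by omega) g4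
          (vF _ _ (by omega) (by omega) g3)
      have f5 := (List.getElem?_eq_some_iff.mp g2).1
      omega

/-- Two words of small weight can be connected. -/
lemma connect {κ K : ℝ} (hκ : 0 < κ) (hκ1 : κ ≤ 1) {F G : Finset α} (hFG : Disjoint F G)
    (hF1 : 2 * K < F.card) (hG1 : 2 * K < G.card) (hK : SS κ + 1 ≤ K)
    {Ur V : List α} (hU : KF κ Ur) (hV : KF κ V) (hRU : RR κ Ur ≤ K) (hRV : RR κ V ≤ K) :
    ∃ m, KF κ (Ur.reverse ++ m ++ V) := by
  have hS := SS_pos hκ
  have hF0 : (0:ℝ) < F.card := by linarith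
  have hG0 : (0:ℝ) < G.card := by linarith
  have hF2 : 2 * K / F.card + SS κ ≤ K := by
    have : 2 * K / F.card < 1 := by rw [div_lt_one hF0]; exact hF1
    linarith
  have hG2 : 2 * K / G.card + SS κ ≤ K := by
    have : 2 * K / G.card < 1 := by rw [div_lt_one hG0]; exact hG1
    linarith
  set b := Ur.length with hb
  set u := V.length with hu
  set L := ⌈4 * ((b:ℝ) + 1) / κ⌉₊ + u + 5 with hL
  have hLκ : 4 * ((b:ℝ) + 1) ≤ κ * L := by
    have g1 : 4 * ((b:ℝ) + 1) / κ ≤ ⌈4 * ((b:ℝ) + 1) / κ⌉₊ := Nat.le_ceil _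
    rw [div_le_iff₀ hκ] at g1
    rw [hL]; push_cast
    have : (0:ℝ) ≤ u := by positivity
    nlinarith
  set t := ⌈(2 * (u:ℝ) + b + 4) / κ⌉₊ with ht
  have htκ : 2 * (u:ℝ) + b + 4 ≤ κ * t := by
    have g1 : (2 * (u:ℝ) + b + 4) / κ ≤ t := Nat.le_ceil _
    rw [div_le_iff₀ hκ] at g1
    linarith
  obtain ⟨T1, hT1, hT1G, hT1K, _⟩ := greedy hκ G hG1 hG2 V hV hRV t
  obtain ⟨T2, hT2, hT2F, hT2K, _⟩ := greedy hκ F hF1 hF2 Ur hU hRU L
  have hrev : (T2 ++ Ur).reverse = Ur.reverse ++ T2.reverse := by rw [List.reverse_append]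
  refine ⟨T2.reverse ++ T1, ?_⟩
  have e : Ur.reverse ++ (T2.reverse ++ T1) ++ V = (T2 ++ Ur).reverse ++ (T1 ++ V) := by
    rw [hrev]; simp
  rw [e]
  apply join (F := F) (b := b) (L := L) hκ hκ1 (KF_reverse hκ hT2K)
  · rw [List.length_reverse, List.length_append, hT2]; omega
  · exact hT1K
  · intro x hx hxF
    exact (Finset.disjoint_left.mp hFG hxF) (hT1G x hx)
  · intro i c hi1 hi2 hc
    rw [hrev, List.getElem?_append_right (by rw [List.length_reverse]; omega),
      List.length_reverse] at hc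
    have h1 : c ∈ T2.reverse := List.mem_of_getElem? hc
    rw [List.mem_reverse] at h1
    exact hT2F c h1
  · exact hLκ
  · omega
  · rw [hT1]; exact htκ

/-- Words of small weight are infinitely extendable. -/
lemma extend {κ K : ℝ} (hκ : 0 < κ) {F : Finset α}
    (hF1 : 2 * K < F.card) (hK : SS κ + 1 ≤ K) {V : List α} (hV : KF κ V) (hRV : RR κ V ≤ K)
    (n : ℕ) : ∃ T : List α, T.length = n ∧ KF κ (T ++ V) := by
  have hS := SS_pos hκ
  have hF0 : (0:ℝ) < F.card := by linarith
  have hF2 : 2 * K / F.card + SS κ ≤ K := by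
    have : 2 * K / F.card < 1 := by rw [div_lt_one hF0]; exact hF1
    linarith
  obtain ⟨T, h1, _, h2, _⟩ := greedy hκ F hF1 hF2 V hV hRV n
  exact ⟨T, h1, h2⟩

lemma KC_bounds {κ : ℝ} (hκ : 0 < κ) (hκ1 : κ ≤ 1) :
    SS κ + 1 ≤ SS (κ/2) + 21 ∧ 2 * (SS (κ/2) + 21) ≤ 8 / κ + 42 := by
  have hb1 : SS (κ/2) ≤ 4 / κ := by
    have := SS_le (θ := κ/2) (by positivity) (by linarith)
    have e : 2 / (κ/2) = 4 / κ := by field_simp; norm_num
    linarith
  have hmono : SS κ ≤ SS (κ/2) := by
    unfold SS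
    have h2 : (1/2 : ℝ) ^ κ ≤ (1/2 : ℝ) ^ (κ/2) :=
      Real.rpow_le_rpow_of_exponent_ge (by norm_num) (by norm_num) (by linarith)
    have h3 := rpow_half_lt_one (θ := κ/2) (by positivity)
    apply div_le_div_of_nonneg_left (by norm_num) (by linarith) (by linarith)
  constructor
  · linarith
  · have e : (8:ℝ) / κ = 2 * (4 / κ) := by ring
    rw [e]; linarith

end H42PG
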