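import Pool.Agent.H42.PG.Join

namespace H42PG

open H42PF

variable {α : Type*} [DecidableEq α]

/-- weight with general thresholds -/
noncomputable def RG (g : ℕ → ℕ) (l : List α) : ℝ :=
  ∑ p ∈ Finset.range l.length, (1/2 : ℝ) ^ (g (p+1) - lam l (p+1))

/-- One greedy step with general thresholds. -/
lemma gstep {g : ℕ → ℕ} {K S : ℝ} (hg : ∀ p, 1 ≤ p → 1 ≤ g p)
    (hS : ∀ n, ∑ p ∈ Finset.range n, (1/2 : ℝ) ^ (g (p+1)) ≤ S) (A : Finset α)
    (hA1 : 2 * K < A.card) (hA2 : 2 * K / A.card + S ≤ K)
    (l : List α) (hl : ∀ p, 1 ≤ p → lam l p < g p) (hR : RG g l ≤ K) :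
    ∃ a ∈ A, (∀ p, 1 ≤ p → lam (a :: l) p < g p) ∧ RG g (a :: l) ≤ K := by
  have hK : 0 ≤ K := by
    refine le_trans ?_ hR
    unfold RG
    positivity
  have hApos : (0:ℝ) < A.card := by linarith
  let Φ : α → ℝ := fun a => ∑ p ∈ Finset.range l.length,
    if l[p]? = some a then 2 * (1/2 : ℝ) ^ (g (p+1) - lam l (p+1)) else 0
  have hΦ : ∑ a ∈ A, Φ a ≤ 2 * K := by
    simp only [Φ]
    rw [Finset.sum_comm]
    have h1 : ∀ p ∈ Finset.range l.length,
        ∑ a ∈ A, (if l[p]? = some a then 2 * (1/2 : ℝ) ^ (g (p+1) - lam l (p+1)) else 0)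
        ≤ 2 * (1/2 : ℝ) ^ (g (p+1) - lam l (p+1)) := by
      intro p hp
      rw [Finset.mem_range] at hp
      have h2 : l[p]? = some l[p] := List.getElem?_eq_getElem hp
      simp only [h2, Option.some.injEq]
      rw [Finset.sum_ite_eq]
      split_ifs
      · exact le_rfl
      · positivity
    refine le_trans (Finset.sum_le_sum h1) ?_
    rw [← Finset.mul_sum]
    have : ∑ i ∈ Finset.range l.length, (1/2 : ℝ) ^ (g (i+1) - lam l (i+1)) = RG g l := rfl
    rw [this]
    linarith
  have hex : ∃ a ∈ A, Φ a ≤ 2 * K / A.card := by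
    by_contra hcon
    push Not at hcon
    have hne : A.Nonempty := by
      rw [← Finset.card_pos]; exact_mod_cast hApos
    have h2 : ∑ a ∈ A, (2 * K / A.card) < ∑ a ∈ A, Φ a :=
      Finset.sum_lt_sum_of_nonempty hne hcon
    rw [Finset.sum_const, nsmul_eq_mul, mul_div_cancel₀ _ (ne_of_gt hApos)] at h2
    linarith
  obtain ⟨a, haA, ha⟩ := hex
  have hlt1 : 2 * K / A.card < 1 := by
    rw [div_lt_one hApos]; exact hA1
  have hterm : ∀ p, p < l.length → l[p]? = some a →
      2 * (1/2 : ℝ) ^ (g (p+1) - lam l (p+1)) < 1 := by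
    intro p hp hpa
    have h1 : (if l[p]? = some a then 2 * (1/2 : ℝ) ^ (g (p+1) - lam l (p+1)) else 0) ≤ Φ a := by
      apply Finset.single_le_sum (f := fun p => if l[p]? = some a then
        2 * (1/2 : ℝ) ^ (g (p+1) - lam l (p+1)) else 0)
      · intro q _; split_ifs <;> positivity
      · exact Finset.mem_range.mpr hp
    rw [if_pos hpa] at h1
    linarith
  have hlam2 : ∀ p, 1 ≤ p → l[p-1]? = some a → lam l p + 2 ≤ g p := by
    intro p hp hpa
    have hlt : p - 1 < l.length := (List.getElem?_eq_some_iff.mp hpa).1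
    have h1 := hterm (p-1) hlt hpa
    have e : p - 1 + 1 = p := by omega
    rw [e] at h1
    have h2 := hl p hp
    by_contra h3
    have h4 : g p - lam l p = 1 := by omega
    rw [h4] at h1
    norm_num at h1
  refine ⟨a, haA, ?_, ?_⟩
  · intro p hp
    rw [lam_cons]
    split_ifs with h1
    · have := hlam2 p hp h1
      omega
    · exact hg p hp
  · have h1 : RG g (a :: l) ≤ ∑ p ∈ Finset.range (l.length + 1),
        ((if l[p]? = some a then 2 * (1/2 : ℝ) ^ (g (p+1) - lam l (p+1)) else 0)
          + (1/2 : ℝ) ^ (g (p+1))) := by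
      unfold RG
      rw [List.length_cons]
      apply Finset.sum_le_sum
      intro p hp
      rw [lam_cons]
      have e : p + 1 - 1 = p := by omega
      rw [e]
      split_ifs with h2
      · have h3 := hlam2 (p+1) (by omega) (by rw [e]; exact h2)
        have h4 : g (p+1) - lam l (p+1) = (g (p+1) - (lam l (p+1) + 1)) + 1 := by omega
        rw [h4, pow_succ]
        have h5 : (0:ℝ) < (1/2 : ℝ) ^ (g (p+1)) := by positivity
        linarith
      · simp
    rw [Finset.sum_add_distrib] at h1
    have h2 : ∑ p ∈ Finset.range (l.length + 1),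
        (if l[p]? = some a then 2 * (1/2 : ℝ) ^ (g (p+1) - lam l (p+1)) else 0) = Φ a := by
      rw [Finset.sum_range_succ]
      have h3 : l[l.length]? = none := by simp
      rw [h3]
      simp [Φ]
    rw [h2] at h1
    have h3 := hS (l.length + 1)
    linarith

/-- Greedy words of any length, general thresholds. -/
lemma ggreedy {g : ℕ → ℕ} {K S : ℝ} (hg : ∀ p, 1 ≤ p → 1 ≤ g p)
    (hS : ∀ n, ∑ p ∈ Finset.range n, (1/2 : ℝ) ^ (g (p+1)) ≤ S) (A : Finset α)
    (hA1 : 2 * K < A.card) (hA2 : 2 * K / A.card + S ≤ K)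
    (l : List α) (hl : ∀ p, 1 ≤ p → lam l p < g p) (hR : RG g l ≤ K) (n : ℕ) :
    ∃ T : List α, T.length = n ∧ (∀ x ∈ T, x ∈ A) ∧
      (∀ e p, 1 ≤ p → lam (T.drop e ++ l) p < g p) ∧ RG g (T ++ l) ≤ K := by
  induction n with
  | zero => exact ⟨[], rfl, by simp, by simpa using hl, by simpa using hR⟩
  | succ n ih =>
    obtain ⟨T, hT1, hT2, hT3, hT4⟩ := ih
    obtain ⟨a, ha, h1, h2⟩ := gstep hg hS A hA1 hA2 (T ++ l) (by simpa using hT3 0) hT4
    refine ⟨a :: T, by simp [hT1], ?_, ?_, by simpa using h2⟩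
    · intro x hx
      rcases List.mem_cons.mp hx with rfl | hx
      · exact ha
      · exact hT2 x hx
    · intro e p hp
      rcases e with _ | e
      · simpa using h1 p hp
      · simpa using hT3 e p hp

lemma KF_of_drop {κ : ℝ} {z : List α} (hz : KF κ z) : ∀ T : List α,
    (∀ e p, 1 ≤ p → lam (T.drop e ++ z) p < hh κ p) → KF κ (T ++ z) := by
  intro T
  induction T with
  | nil => intro _; simpa using hz
  | cons a T ih =>
    intro h
    refine ⟨ih (fun e p hp => by simpa using h (e+1) p hp), fun p hp => by simpa using h 0 p hp⟩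

/-- thresholds adapted to the word `z` -/
noncomputable def thr (κ : ℝ) (z : List α) (p : ℕ) : ℕ :=
  if p ≤ z.length ∧ lam z p = z.length - p then
    (z.length - p) + (hh κ p - (z.length - p) + 1) / 2 else hh κ p

lemma thr_le {κ : ℝ} (hκ : 0 < κ) {z : List α} (hz : KF κ z) {p : ℕ} (hp : 1 ≤ p) :
    thr κ z p ≤ hh κ p := by
  unfold thr
  have := KF_lam hκ hz hp
  split_ifs with h
  · omega
  · exact le_rfl

lemma lam_lt_thr {κ : ℝ} (hκ : 0 < κ) {z : List α} (hz : KF κ z) {p : ℕ} (hp : 1 ≤ p) :
    lam z p < thr κ z p := by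
  unfold thr
  have := KF_lam hκ hz hp
  split_ifs with h
  · omega
  · exact this

lemma le_two_thr {κ : ℝ} {z : List α} {p : ℕ} : hh κ p ≤ 2 * thr κ z p := by
  unfold thr
  split_ifs with h
  · omega
  · omega

lemma sum_thr_le {κ : ℝ} (hκ : 0 < κ) (z : List α) (n : ℕ) :
    ∑ p ∈ Finset.range n, (1/2 : ℝ) ^ (thr κ z (p+1)) ≤ SS (κ/2) := by
  refine le_trans (Finset.sum_le_sum ?_) (geom_bound (θ := κ/2) (by positivity) n)
  intro p _
  apply pow_half_le_rpow
  have h1 := le_hh κ (p+1)
  have h2 := le_two_thr (κ := κ) (z := z) (p := p+1)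
  have h3 : (hh κ (p+1) : ℝ) ≤ 2 * (thr κ z (p+1) : ℕ) := by exact_mod_cast h2
  linarith

lemma half_sum (m : ℕ) :
    ∑ d ∈ Finset.range (2 * m), (1/2 : ℝ) ^ ((d + 2) / 2) = 2 - 2 * (1/2) ^ m := by
  induction m with
  | zero => simp
  | succ m ih =>
    have e : 2 * (m + 1) = 2 * m + 1 + 1 := by ring
    rw [e, Finset.sum_range_succ, Finset.sum_range_succ, ih]
    have e1 : (2 * m + 2) / 2 = m + 1 := by omega
    have e2 : (2 * m + 1 + 2) / 2 = m + 1 := by omega
    rw [e1, e2, pow_succ]
    ring

lemma inj_sum {S : Finset ℕ} {D : ℕ → ℕ} (hinj : ∀ p ∈ S, ∀ q ∈ S, D p = D q → p = q)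
    (hpos : ∀ p ∈ S, 1 ≤ D p) : ∑ p ∈ S, (1/2 : ℝ) ^ ((D p + 1) / 2) ≤ 2 := by
  have h1 : ∑ p ∈ S, (1/2 : ℝ) ^ ((D p + 1) / 2) =
      ∑ d ∈ S.image (fun p => D p - 1), (1/2 : ℝ) ^ ((d + 2) / 2) := by
    rw [Finset.sum_image]
    · apply Finset.sum_congr rfl
      intro p hp
      have := hpos p hp
      have e : D p - 1 + 2 = D p + 1 := by omega
      rw [e]
    · intro p hp q hq hpq
      have h1 := hpos p hp
      have h2 := hpos q hq
      have h3 : D p - 1 = D q - 1 := hpq
      exact hinj p hp q hq (by omega)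
  rw [h1]
  obtain ⟨M, hM⟩ : ∃ M, ∀ d ∈ S.image (fun p => D p - 1), d < 2 * M := by
    refine ⟨(S.image (fun p => D p - 1)).sup id + 1, fun d hd => ?_⟩
    have : d ≤ (S.image (fun p => D p - 1)).sup id := Finset.le_sup (f := id) hd
    omega
  refine le_trans (Finset.sum_le_sum_of_subset_of_nonneg (t := Finset.range (2 * M)) ?_ ?_) ?_
  · intro d hd
    exact Finset.mem_range.mpr (hM d hd)
  · intro i _ _; positivity
  · rw [half_sum]
    have : (0:ℝ) < 2 * (1/2) ^ M := by positivity
    linarith

lemma RG_thr_le {κ : ℝ} (hκ : 0 < κ) {z : List α} (hz : KF κ z) :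
    RG (thr κ z) z ≤ RR κ z + 2 := by
  classical
  set a := z.length with ha
  set D : ℕ → ℕ := fun p => hh κ (p+1) - (a - (p+1)) with hD
  set S := Finset.filter (fun p : ℕ => lam z (p+1) = a - (p+1)) (Finset.range a) with hS
  have h1 : ∀ p ∈ Finset.range a, (1/2 : ℝ) ^ (thr κ z (p+1) - lam z (p+1)) ≤
      (1/2 : ℝ) ^ (hh κ (p+1) - lam z (p+1)) +
        (if lam z (p+1) = a - (p+1) then (1/2 : ℝ) ^ ((D p + 1) / 2) else 0) := by
    intro p hp
    rw [Finset.mem_range] at hp
    unfold thr
    rw [← ha]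
    by_cases h : lam z (p+1) = a - (p+1)
    · rw [if_pos ⟨by omega, h⟩, if_pos h]
      have e : a - (p+1) + (hh κ (p+1) - (a - (p+1)) + 1) / 2 - lam z (p+1) = (D p + 1) / 2 := by
        rw [hD]; simp only; omega
      rw [e]
      have : (0:ℝ) < (1/2 : ℝ) ^ (hh κ (p+1) - lam z (p+1)) := by positivity
      linarith
    · rw [if_neg (fun hc => h hc.2), if_neg h]
      linarith
  have h2 : RG (thr κ z) z ≤ RR κ z + ∑ p ∈ Finset.range a,
      (if lam z (p+1) = a - (p+1) then (1/2 : ℝ) ^ ((D p + 1) / 2) else 0) := by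
    unfold RG RR
    rw [← Finset.sum_add_distrib]
    exact Finset.sum_le_sum h1
  rw [← Finset.sum_filter] at h2
  have h3 : ∑ p ∈ S, (1/2 : ℝ) ^ ((D p + 1) / 2) ≤ 2 := by
    have hlt : ∀ p ∈ S, a - (p+1) < hh κ (p+1) := by
      intro p hp
      rw [hS, Finset.mem_filter] at hp
      have := KF_lam hκ hz (p := p+1) (by omega)
      omega
    apply inj_sum
    · intro p hp q hq hpq
      have g1 := hlt p hp
      have g2 := hlt q hq
      rw [hS, Finset.mem_filter, Finset.mem_range] at hp hq
      simp only [hD] at hpq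
      rcases lt_trichotomy p q with h | h | h
      · have := hh_mono hκ.le (by omega : p + 1 ≤ q + 1)
        omega
      · exact h
      · have := hh_mono hκ.le (by omega : q + 1 ≤ p + 1)
        omega
    · intro p hp
      have g1 := hlt p hp
      simp only [hD]
      omega
  linarith

lemma lam_append_le {p : ℕ} (hp : 1 ≤ p) (l m : List α) : lam l p ≤ lam (l ++ m) p := by
  rw [le_lam hp]
  intro i hi
  obtain ⟨c, h1, h2⟩ := (le_lam hp l (lam l p)).mp le_rfl i hi
  have g1 := (List.getElem?_eq_some_iff.mp h1).1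
  have g2 := (List.getElem?_eq_some_iff.mp h2).1
  refine ⟨c, ?_, ?_⟩
  · rw [List.getElem?_append_left g1]; exact h1
  · rw [List.getElem?_append_left g2]; exact h2

lemma RR_append_le (κ : ℝ) (l m : List α) : RR κ l ≤ RR κ (l ++ m) := by
  unfold RR
  rw [List.length_append]
  have h1 : ∑ p ∈ Finset.range l.length, (1/2 : ℝ) ^ (hh κ (p+1) - lam l (p+1)) ≤
      ∑ p ∈ Finset.range l.length, (1/2 : ℝ) ^ (hh κ (p+1) - lam (l ++ m) (p+1)) := by
    apply Finset.sum_le_sum
    intro p _
    apply pow_le_pow_of_le_one (by norm_num) (by norm_num)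
    have := lam_append_le (p := p+1) (by omega) l m
    omega
  refine le_trans h1 ?_
  apply Finset.sum_le_sum_of_subset_of_nonneg
  · intro i hi
    rw [Finset.mem_range] at hi ⊢
    omega
  · intro i _ _; positivity

/-- A long power-free extension passes through a word of small weight. -/
lemma chain2 {κ C : ℝ} (hκ : 0 < κ) (w x : List α) (hx : KF κ (x ++ w))
    (hlen : 20 * ((x.length:ℝ) + w.length) < C * x.length) :
    ∃ z y, x = z ++ y ∧ RR κ (y ++ w) ≤ SS (κ/2) + C := by
  by_contra hcon
  push Not at hcon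
  have h1 : ∀ y z, x = z ++ y → C * (y.length:ℝ) ≤ GT κ (y ++ w) := by
    intro y
    induction y with
    | nil => intro z _; simpa using GT_nonneg w
    | cons a y ih =>
      intro z hz
      have h2 := ih (z ++ [a]) (by rw [hz]; simp)
      have h3 := hcon z (a :: y) hz
      have h4 := RR_le_Gs hκ (a :: y ++ w)
      rw [List.cons_append] at h3 h4 ⊢
      simp only [GT]
      rw [List.length_cons]
      push_cast
      linarith
  have h2 := h1 x [] rfl
  have h3 := GT_le hκ _ hx
  rw [List.length_append] at h3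
  push_cast at h3
  linarith

lemma join2 {κ : ℝ} (hκ : 0 < κ) (hκ1 : κ ≤ 1) {A F : Finset α} (hAF : Disjoint A F)
    {T z W : List α} (hT : KF κ (T ++ z)) (hW : KF κ (z ++ W))
    (hTA : ∀ x ∈ T, x ∈ A) (hWF : ∀ x ∈ W, x ∈ F)
    (hT2 : ∀ e p, 1 ≤ p → lam (T.drop e ++ z) p < thr κ z p)
    (hW2 : ∀ e p, 1 ≤ p → lam (W.reverse.drop e ++ z.reverse) p < thr κ z.reverse p) :
    KF κ (T ++ (z ++ W)) := by
  set t := T.length with ht
  set a := z.length with ha
  set w := W.length with hw
  set V := T ++ (z ++ W) with hV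
  have hVlen : V.length = t + (a + w) := by
    rw [hV, List.length_append, List.length_append]
  have v1 : ∀ i, i < t → V[i]? = T[i]? := by
    intro i hi
    rw [hV, List.getElem?_append_left (by omega)]
  have v2 : ∀ i, V[t + i]? = (z ++ W)[i]? := by
    intro i
    rw [hV, List.getElem?_append_right (by omega)]
    congr 1; omega
  have v3 : ∀ i, i < a → V[t + i]? = z[i]? := by
    intro i hi
    rw [v2, List.getElem?_append_left (by omega)]
  have v4 : ∀ i, V[t + a + i]? = W[i]? := by
    intro i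
    rw [add_assoc, v2, List.getElem?_append_right (by omega)]
    congr 1; omega
  have vA : ∀ i c, i < t → V[i]? = some c → c ∈ A := by
    intro i c hi hc
    rw [v1 i hi] at hc
    exact hTA c (List.mem_of_getElem? hc)
  have vF : ∀ i c, t + a ≤ i → V[i]? = some c → c ∈ F := by
    intro i c hi hc
    have e : i = t + a + (i - (t + a)) := by omega
    rw [e, v4] at hc
    exact hWF c (List.mem_of_getElem? hc)
  have v5 : ∀ i, i < t + a → V[i]? = (T ++ z)[i]? := by
    intro i hi
    rw [hV, ← List.append_assoc, List.getElem?_append_left (by rw [List.length_append]; omega)]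
  rw [KF_iff hκ]
  rintro s p ⟨hp, hrun⟩
  have hpos := hh_pos hκ hp
  have hhp := hh_le_self hκ1 p
  set h := hh κ p with hh_def
  have htot : s + p + h ≤ t + (a + w) := by
    obtain ⟨c, _, g2⟩ := hrun (h-1) (by omega)
    have := (List.getElem?_eq_some_iff.mp g2).1
    omega
  by_cases q1 : t ≤ s
  · apply (KF_iff hκ (z ++ W)).mp hW (s - t) p
    refine ⟨hp, fun i hi => ?_⟩
    obtain ⟨c, g1, g2⟩ := hrun i hi
    refine ⟨c, ?_, ?_⟩
    · rw [← v2]
      have : t + (s - t + i) = s + i := by omega
      rw [this]; exact g1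
    · rw [← v2]
      have : t + (s - t + i + p) = s + i + p := by omega
      rw [this]; exact g2
  push Not at q1
  by_cases q2 : s + p + h ≤ t + a
  · apply (KF_iff hκ (T ++ z)).mp hT s p
    refine ⟨hp, fun i hi => ?_⟩
    rw [← hh_def] at hi
    obtain ⟨c, g1, g2⟩ := hrun i hi
    rw [v5 _ (by omega)] at g1 g2
    exact ⟨c, g1, g2⟩
  push Not at q2
  have q3 : s + p < t + a := by
    by_contra hcon
    push Not at hcon
    obtain ⟨c, g1, g2⟩ := hrun 0 (by omega)
    exact (Finset.disjoint_left.mp hAF (vA _ c (by omega) g1)) (vF _ c (by omega) g2)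
  have q4 : t ≤ s + h - 1 := by
    by_contra hcon
    push Not at hcon
    obtain ⟨c, g1, g2⟩ := hrun (h - 1) (by omega)
    exact (Finset.disjoint_left.mp hAF (vA _ c (by omega) g1)) (vF _ c (by omega) g2)
  have q5 : p ≤ a := by
    by_contra hcon
    push Not at hcon
    obtain ⟨c, g1, g2⟩ := hrun (t - 1 - s) (by omega)
    exact (Finset.disjoint_left.mp hAF (vA _ c (by omega) g1)) (vF _ c (by omega) g2)
  -- `p` is a period of `z`
  have hper : ∀ i, i < a - p → ∃ c, z[i]? = some c ∧ z[i+p]? = some c := by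
    intro i hi
    obtain ⟨c, g1, g2⟩ := hrun (t + i - s) (by omega)
    refine ⟨c, ?_, ?_⟩
    · rw [← v3 i (by omega)]
      have : t + i = s + (t + i - s) := by omega
      rw [this]; exact g1
    · rw [← v3 (i+p) (by omega)]
      have : t + (i + p) = s + (t + i - s) + p := by omega
      rw [this]; exact g2
  have hz1 : lam z p = a - p := by
    have h1 : a - p ≤ lam z p := by rw [le_lam hp]; exact hper
    rcases lam_le_length hp z with h2 | h2
    · omega
    · omega
  have hz2 : lam z.reverse p = a - p := by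
    have h1 : a - p ≤ lam z.reverse p := by
      rw [le_lam hp]
      intro i hi
      obtain ⟨c, g1, g2⟩ := hper (a - p - 1 - i) (by omega)
      refine ⟨c, ?_, ?_⟩
      · rw [List.getElem?_reverse (by omega), ← g2]
        congr 1; omega
      · rw [List.getElem?_reverse (by omega), ← g1]
        congr 1; omega
    rcases lam_le_length hp z.reverse with h2 | h2
    · rw [List.length_reverse] at h2; omega
    · omega
  -- left
  have hL : (t - s) + (a - p) < thr κ z p := by
    refine lt_of_le_of_lt ?_ (hT2 s p hp)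
    rw [le_lam hp]
    intro i hi
    obtain ⟨c, g1, g2⟩ := hrun i (by omega)
    have e : ∀ j, s + j < t + a → (T.drop s ++ z)[j]? = V[s + j]? := by
      intro j hj
      rw [v5 _ hj]
      by_cases hjt : s + j < t
      · rw [List.getElem?_append_left (by rw [List.length_drop]; omega),
          List.getElem?_append_left (by omega), List.getElem?_drop]
      · rw [List.getElem?_append_right (by rw [List.length_drop]; omega),
          List.getElem?_append_right (by omega), List.length_drop]
        congr 1; omega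
    refine ⟨c, ?_, ?_⟩
    · rw [e i (by omega)]; exact g1
    · rw [e (i+p) (by omega), ← add_assoc]; exact g2
  -- right
  set e2 := s + p + h - (t + a) with he2
  have hR : e2 + (a - p) < thr κ z.reverse p := by
    refine lt_of_le_of_lt ?_ (hW2 (w - e2) p hp)
    rw [le_lam hp]
    intro i hi
    obtain ⟨c, g1, g2⟩ := hrun (h - 1 - i) (by omega)
    have e : ∀ j, j < e2 + a → (W.reverse.drop (w - e2) ++ z.reverse)[j]? =
        V[t + a + e2 - 1 - j]? := by
      intro j hj
      by_cases hjt : j < e2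
      · rw [List.getElem?_append_left (by rw [List.length_drop, List.length_reverse]; omega),
          List.getElem?_drop, List.getElem?_reverse (by omega)]
        have e3 : t + a + e2 - 1 - j = t + a + (e2 - 1 - j) := by omega
        rw [e3, v4]
        congr 1; omega
      · rw [List.getElem?_append_right (by rw [List.length_drop, List.length_reverse]; omega),
          List.length_drop, List.length_reverse, List.getElem?_reverse (by omega)]
        have e3 : t + a + e2 - 1 - j = t + (a + e2 - 1 - j) := by omega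
        rw [e3, v3 _ (by omega)]
        congr 1; omega
    refine ⟨c, ?_, ?_⟩
    · rw [e i (by omega), ← g2]
      congr 1; omega
    · rw [e (i+p) (by omega), ← g1]
      congr 1; omega
  have t1 : thr κ z p = (a - p) + (h - (a - p) + 1) / 2 := by
    unfold thr
    rw [if_pos ⟨q5, hz1⟩]
  have t2 : thr κ z.reverse p = (a - p) + (h - (a - p) + 1) / 2 := by
    unfold thr
    rw [List.length_reverse, if_pos ⟨q5, hz2⟩]
  rw [t1] at hL
  rw [t2] at hR
  omega

end H42PG
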